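import Pool.Agent.U467.SM.Lin

/-!
# Two parameters with a non-hyperbolic orbit of the same itinerary: the key inequality
-/

set_option autoImplicit false

namespace Pool.Agent.U467.SM

theorem core {n : ℕ} {l A u δ : ℝ} (hn : 1 ≤ n) (hl : 99 ≤ l) (hA : l ^ 2 ≤ A) (hu : 0 < u)
    (hu1 : u ≤ 1) (hδ1 : |δ| ≤ 1)
    (L L' Lt Δ s : ℕ → ℝ) (hΔ : Δ n = Δ 0)
    (hs : ∀ k, |s k| ≤ 1) (hs0 : 9 / 10 ≤ |s 0|)
    (bL : ∀ k, 1 ≤ k → k < n → l ≤ |L k|) (bL' : ∀ k, 1 ≤ k → k < n → l ≤ |L' k|)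
    (bLt : ∀ k, 1 ≤ k → k < n → l ≤ |Lt k|)
    (eq : ∀ k, 1 ≤ k → k < n → Lt k * Δ k - Δ (k + 1) - Δ (k - 1) = -(δ * s k))
    (eq0 : Lt 0 * Δ 0 - Δ 1 - Δ (n - 1) = -(δ * s 0))
    (d1 : ∀ k, 1 ≤ k → k < n → |L k - L' k| ≤ 7 * |δ| + 41 * A * |Δ k|)
    (d2 : ∀ k, 1 ≤ k → k < n → |L k - Lt k| ≤ 7 * |δ| + 41 * A * |Δ k|)
    (d0 : |Lt 0 - L 0| ≤ 41 * A * |Δ 0|)
    (d3 : 35 * A * |Δ 0| ≤ |L' 0 - L 0| + 7 * |δ| / A)
    (pL : 1 / u ≤ |fy L n|) (pL' : 1 / u ≤ |fy L' n|) (pLt : 1 / u ≤ |fy Lt n|)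
    (t1 : |L 0 - ee L n| ≤ 2 * u) (t2 : |L' 0 - ee L' n| ≤ 2 * u) :
    |δ| ≤ 12000 * u ^ 2 / A := by
  have hl0 : 0 < l := by linarith
  have hl2 : 0 < l - 2 := by linarith
  have hl2' : 2 < l := by linarith
  have hA0 : 0 < A := lt_of_lt_of_le (by positivity) hA
  have hu' : 0 < 1 / u := by positivity
  have nz : ∀ {x : ℝ}, 1 / u ≤ |x| → x ≠ 0 := fun {x} h => by
    intro h0; rw [h0, abs_zero] at h; linarith
  have inv : ∀ {x : ℝ}, 1 / u ≤ |x| → |1 / x| ≤ u := fun {x} h => by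
    rw [abs_div, abs_one]
    rw [div_le_iff₀ (lt_of_lt_of_le hu' h)]
    rw [div_le_iff₀ hu] at h
    linarith
  set D := |Δ 0| with hD
  set d := |δ| with hd
  have hD0 : 0 ≤ D := abs_nonneg _
  have hd0 : 0 ≤ d := abs_nonneg _
  set w := 1 / (l - 2) with hw
  have hw0 : 0 < w := by positivity
  have hwl : w ≤ 103 / 100 / l := by
    rw [hw, div_le_div_iff₀ hl2 hl0]; linarith
  set κ := A / l ^ 3 with hκ
  have hκ0 : 0 < κ := by positivity
  -- bound of the differences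
  have hM : ∀ k, 1 ≤ k → k < n → |Δ k| ≤ (2 * D + d) * w := by
    intro k hk hkn
    have := maxp (n := n) (η := d) (B := D) hl2' hD0 Lt Δ le_rfl (by rw [hΔ]) bLt
      (fun k hk hkn => by
        rw [eq k hk hkn, abs_neg, abs_mul]
        calc |δ| * |s k| ≤ |δ| * 1 := by gcongr; exact hs k
          _ = d := by rw [mul_one]) k hk hkn
    rw [hw]; rw [mul_one_div]; exact this
  set ε := 7 * d + 41 * A * ((2 * D + d) * w) with hε
  have hε0 : 0 ≤ ε := by positivity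
  have hε1 : 4 * ε / (l - 2) ^ 2 ≤ κ * (360 * D + 181 * d) := by
    have e1 : 4 * ε / (l - 2) ^ 2 = 28 * d * w ^ 2 + 164 * A * (2 * D + d) * w ^ 3 := by
      rw [hε, hw]; field_simp; ring
    have w2 : w ^ 2 ≤ 107 / 100 / l ^ 2 := by
      calc w ^ 2 ≤ (103 / 100 / l) ^ 2 := by gcongr
        _ = (103 / 100) ^ 2 / l ^ 2 := by rw [div_pow]
        _ ≤ _ := by gcongr; norm_num
    have w3 : w ^ 3 ≤ 1093 / 1000 / l ^ 3 := by
      calc w ^ 3 ≤ (103 / 100 / l) ^ 3 := by gcongr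
        _ = (103 / 100) ^ 3 / l ^ 3 := by rw [div_pow]
        _ ≤ _ := by gcongr; norm_num
    have k1 : 99 / l ^ 2 ≤ κ := by
      rw [hκ, div_le_div_iff₀ (by positivity) (by positivity)]
      have : l ^ 2 * l ^ 2 ≤ A * l ^ 2 := by gcongr
      have h3 : 99 * l ^ 3 ≤ l * l ^ 3 := by gcongr
      nlinarith
    have a1 : 28 * d * w ^ 2 ≤ 28 * d * (107 / 100 / l ^ 2) := by gcongr
    have a2 : 164 * A * (2 * D + d) * w ^ 3 ≤ 164 * A * (2 * D + d) * (1093 / 1000 / l ^ 3) := by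
      gcongr
    have a3 : 164 * A * (2 * D + d) * (1093 / 1000 / l ^ 3) =
        164 * 1093 / 1000 * (2 * D + d) * κ := by rw [hκ]; ring
    have a4 : 28 * d * (107 / 100 / l ^ 2) = 28 * 107 / 9900 * d * (99 / l ^ 2) := by ring
    have a5 : 28 * 107 / 9900 * d * (99 / l ^ 2) ≤ 28 * 107 / 9900 * d * κ := by gcongr
    rw [e1]
    have h1 : 0 ≤ κ * D := by positivity
    have h2 : 0 ≤ κ * d := by positivity
    nlinarith
  have hLε : ∀ k, 1 ≤ k → k < n → |L k - L' k| ≤ ε := fun k hk hkn =>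
    (d1 k hk hkn).trans (by rw [hε]; gcongr; exact hM k hk hkn)
  have hLtε : ∀ k, 1 ≤ k → k < n → |L k - Lt k| ≤ ε := fun k hk hkn =>
    (d2 k hk hkn).trans (by rw [hε]; gcongr; exact hM k hk hkn)
  have he1 : |ee L n - ee L' n| ≤ κ * (360 * D + 181 * d) :=
    (ee_lip hl2' hn (nz pL) (nz pL') bL bL' hε0 hLε).trans hε1
  have he2 : |ee L n - ee Lt n| ≤ κ * (360 * D + 181 * d) :=
    (ee_lip hl2' hn (nz pL) (nz pLt) bL bLt hε0 hLtε).trans hε1
  -- step 2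
  have hκD : 360 * κ ≤ A / 2000 := by
    rw [hκ, mul_div_assoc', div_le_div_iff₀ (by positivity) (by norm_num)]
    have h3 : (99:ℝ) ^ 3 ≤ l ^ 3 := by gcongr
    nlinarith
  have h7 : 7 * d / A ≤ κ * d := by
    rw [hκ, div_mul_eq_mul_div, div_le_div_iff₀ hA0 (by positivity)]
    have h3 : 7 * l ^ 3 ≤ A * A := by
      calc 7 * l ^ 3 ≤ l * l ^ 3 := by gcongr; linarith
        _ = l ^ 2 * l ^ 2 := by ring
        _ ≤ A * A := by gcongr
    nlinarith
  set x := κ * d with hx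
  have hx0 : 0 ≤ x := by positivity
  have hAD : A * D ≤ 116 / 1000 * u + 53 / 10 * x := by
    have h1 : |L' 0 - L 0| ≤ 4 * u + κ * (360 * D + 181 * d) := by
      have e : L' 0 - L 0 = (L' 0 - ee L' n) - (L 0 - ee L n) - (ee L n - ee L' n) := by ring
      rw [e]
      calc _ ≤ |(L' 0 - ee L' n) - (L 0 - ee L n)| + |ee L n - ee L' n| := abs_sub _ _
        _ ≤ (|L' 0 - ee L' n| + |L 0 - ee L n|) + |ee L n - ee L' n| := by
            gcongr; exact abs_sub _ _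
        _ ≤ _ := by linarith
    have h2 : 360 * κ * D ≤ A / 2000 * D := by gcongr
    nlinarith
  -- step 3
  set ζ : ℕ → ℝ := fun k => Δ k - Δ 0 * (vv Lt n k + vs Lt n k) with hζ
  have z0 : ζ 0 = 0 := by simp [hζ, vv_zero, vs_zero]
  have zn : ζ n = 0 := by simp [hζ, vv_n (nz pLt), vs_n (nz pLt), hΔ]
  have zb : ∀ k, 1 ≤ k → k < n → |ζ k| ≤ d * w := by
    intro k hk hkn
    have := maxp (n := n) (η := d) (B := 0) hl2' le_rfl Lt ζ (by rw [z0]; simp) (by rw [zn]; simp)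
      bLt (fun k hk hkn => by
        have e : Lt k * ζ k - ζ (k + 1) - ζ (k - 1) = -(δ * s k) := by
          have := eq k hk hkn
          have := vv_rec Lt n hk
          have := vs_rec Lt n hk
          simp only [hζ]
          linear_combination eq k hk hkn - Δ 0 * vv_rec Lt n hk - Δ 0 * vs_rec Lt n hk
        rw [e, abs_neg, abs_mul]
        calc |δ| * |s k| ≤ |δ| * 1 := by gcongr; exact hs k
          _ = d := by rw [mul_one]) k hk hkn
    rw [hw, mul_one_div]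
    simpa using this
  have zb1 : |ζ 1| ≤ d * w := by
    rcases hn.lt_or_eq with h | h
    · exact zb 1 le_rfl h
    · rw [h, zn]; simp; positivity
  have zb2 : |ζ (n - 1)| ≤ d * w := by
    rcases hn.lt_or_eq with h | h
    · exact zb (n - 1) (by omega) (by omega)
    · rw [← h]; simp only [Nat.sub_self]; rw [z0]; simp; positivity
  have hmain : (Lt 0 - ee Lt n - 2 * (1 / fy Lt n)) * Δ 0 = ζ 1 + ζ (n - 1) - δ * s 0 := by
    have e1 := vs_one Lt n
    have e2 := vv_pred hn (nz pLt)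
    simp only [hζ, ee]
    linear_combination eq0 + Δ 0 * e1 + Δ 0 * e2
  have hleft : 87 / 100 * d ≤ |ζ 1 + ζ (n - 1) - δ * s 0| := by
    have h1 : |δ * s 0| ≤ |ζ 1 + ζ (n - 1) - δ * s 0| + |ζ 1| + |ζ (n - 1)| := by
      have e : δ * s 0 = -(ζ 1 + ζ (n - 1) - δ * s 0) + ζ 1 + ζ (n - 1) := by ring
      calc |δ * s 0| = |-(ζ 1 + ζ (n - 1) - δ * s 0) + ζ 1 + ζ (n - 1)| := by rw [← e]
        _ ≤ |-(ζ 1 + ζ (n - 1) - δ * s 0) + ζ 1| + |ζ (n - 1)| := abs_add_le _ _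
        _ ≤ (|-(ζ 1 + ζ (n - 1) - δ * s 0)| + |ζ 1|) + |ζ (n - 1)| := by
            gcongr; exact abs_add_le _ _
        _ = _ := by rw [abs_neg]
    rw [abs_mul] at h1
    have h2 : d * (9 / 10) ≤ |δ| * |s 0| := by gcongr
    have h3 : w ≤ 1 / 90 := by
      rw [hw]; exact one_div_le_one_div_of_le (by norm_num) (by linarith)
    have h4 : d * w ≤ d * (1 / 90) := by gcongr
    linarith
  have hcoef : |Lt 0 - ee Lt n - 2 * (1 / fy Lt n)| ≤ 400 * (u + x) := by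
    have e : Lt 0 - ee Lt n - 2 * (1 / fy Lt n) =
        (L 0 - ee L n) + (Lt 0 - L 0) + (ee L n - ee Lt n) - 2 * (1 / fy Lt n) := by ring
    have h2 : |2 * (1 / fy Lt n)| ≤ 2 * u := by
      rw [abs_mul, abs_two]; gcongr; exact inv pLt
    have h3 : 360 * κ * D ≤ A / 2000 * D := by gcongr
    rw [e]
    calc _ ≤ |(L 0 - ee L n) + (Lt 0 - L 0) + (ee L n - ee Lt n)| + |2 * (1 / fy Lt n)| := abs_sub _ _
      _ ≤ (|(L 0 - ee L n) + (Lt 0 - L 0)| + |ee L n - ee Lt n|) + |2 * (1 / fy Lt n)| := by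
          gcongr; exact abs_add_le _ _
      _ ≤ ((|L 0 - ee L n| + |Lt 0 - L 0|) + |ee L n - ee Lt n|) + |2 * (1 / fy Lt n)| := by
          gcongr; exact abs_add_le _ _
      _ ≤ ((2 * u + 41 * A * D) + κ * (360 * D + 181 * d)) + 2 * u := by
          gcongr
      _ ≤ _ := by nlinarith
  have hfin : 87 / 100 * d ≤ 400 * (u + x) * D := by
    rw [← hmain, abs_mul] at hleft
    exact hleft.trans (mul_le_mul_of_nonneg_right hcoef hD0)
  have hD2 : D ≤ 6 * (u + x) / A := by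
    rw [le_div_iff₀ hA0]; linarith
  have h8 : 400 * (u + x) * D ≤ 400 * (u + x) * (6 * (u + x) / A) := by gcongr
  have h9 : 400 * (u + x) * (6 * (u + x) / A) = 2400 / A * (u + x) ^ 2 := by ring
  have h11 : 0 < 1 / A := by positivity
  have hmain2 : d ≤ 2800 * (1 / A) * (u + x) ^ 2 := by
    have h12 : 2400 / A * (u + x) ^ 2 = 2400 * (1 / A * (u + x) ^ 2) := by ring
    have h13 : 0 ≤ 1 / A * (u + x) ^ 2 := by positivity
    linarith
  -- a priori bound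
  have hapr : A * d ≤ 2 := by
    have hw9 : w ≤ 1 / 90 := by
      rw [hw]; exact one_div_le_one_div_of_le (by norm_num) (by linarith)
    have eb : ∀ {K : ℕ → ℝ}, 1 / u ≤ |fy K n| → (∀ k, 1 ≤ k → k < n → l ≤ |K k|) →
        |ee K n| ≤ 1 / 20 := fun {K} h1 h2 => by
      refine (ee_bound hl2' hn (nz h1) h2).trans ?_
      rw [div_le_div_iff₀ hl2 (by norm_num)]; linarith
    have b1 := eb pL bL
    have b2 := eb pL' bL'
    have b3 := eb pLt bLt
    have c1 : |L 0| ≤ 2 + 1 / 20 := by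
      calc |L 0| = |(L 0 - ee L n) + ee L n| := by rw [sub_add_cancel]
        _ ≤ |L 0 - ee L n| + |ee L n| := abs_add_le _ _
        _ ≤ _ := by linarith
    have c2 : |L' 0| ≤ 2 + 1 / 20 := by
      calc |L' 0| = |(L' 0 - ee L' n) + ee L' n| := by rw [sub_add_cancel]
        _ ≤ |L' 0 - ee L' n| + |ee L' n| := abs_add_le _ _
        _ ≤ _ := by linarith
    have c3 : |L' 0 - L 0| ≤ 41 / 10 := (abs_sub _ _).trans (by linarith)
    have c4 : 7 * d / A ≤ 1 / 100 := by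
      rw [div_le_iff₀ hA0]; nlinarith
    have c5 : A * D ≤ 12 / 100 := by linarith
    have c6 : |Lt 0 - ee Lt n - 2 * (1 / fy Lt n)| ≤ 10 := by
      have e : Lt 0 - ee Lt n - 2 * (1 / fy Lt n) =
          L 0 + (Lt 0 - L 0) - ee Lt n - 2 * (1 / fy Lt n) := by ring
      have h2 : |2 * (1 / fy Lt n)| ≤ 2 * u := by
        rw [abs_mul, abs_two]; gcongr; exact inv pLt
      rw [e]
      calc _ ≤ |L 0 + (Lt 0 - L 0) - ee Lt n| + |2 * (1 / fy Lt n)| := abs_sub _ _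
        _ ≤ (|L 0 + (Lt 0 - L 0)| + |ee Lt n|) + |2 * (1 / fy Lt n)| := by
            gcongr; exact abs_sub _ _
        _ ≤ ((|L 0| + |Lt 0 - L 0|) + |ee Lt n|) + |2 * (1 / fy Lt n)| := by
            gcongr; exact abs_add_le _ _
        _ ≤ _ := by linarith
    have c7 : 87 / 100 * d ≤ 10 * D := by
      rw [← hmain, abs_mul] at hleft
      exact hleft.trans (mul_le_mul_of_nonneg_right c6 hD0)
    nlinarith
  have hx2 : x ≤ 2 / l ^ 3 := by
    rw [hx, hκ, div_mul_eq_mul_div]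
    gcongr
  have h14 : (u + x) ^ 2 ≤ 2 * u ^ 2 + 2 * x ^ 2 := by nlinarith [sq_nonneg (u - x)]
  have h15 : 2800 * (1 / A) * (2 * x ^ 2) ≤ 1 / 2 * d := by
    have h16 : x ^ 2 ≤ x * (2 / l ^ 3) := by rw [sq]; gcongr
    have h17 : 2800 * (1 / A) * (2 * (x * (2 / l ^ 3))) = 11200 / l ^ 6 * d := by
      rw [hx, hκ]; field_simp; ring
    have h18 : 11200 / l ^ 6 ≤ 1 / 2 := by
      rw [div_le_div_iff₀ (by positivity) (by norm_num)]
      have : (99:ℝ) ^ 6 ≤ l ^ 6 := by gcongr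
      linarith
    calc 2800 * (1 / A) * (2 * x ^ 2) ≤ 2800 * (1 / A) * (2 * (x * (2 / l ^ 3))) := by gcongr
      _ = 11200 / l ^ 6 * d := h17
      _ ≤ 1 / 2 * d := by gcongr
  have h19 : 2800 * (1 / A) * (u + x) ^ 2 ≤ 2800 * (1 / A) * (2 * u ^ 2 + 2 * x ^ 2) := by gcongr
  have h20 : 12000 * u ^ 2 / A = 12000 * (1 / A * u ^ 2) := by ring
  have h21 : 0 ≤ 1 / A * u ^ 2 := by positivity
  rw [h20]
  linarith

end Pool.Agent.U467.SM
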