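import Pool.Agent.U467.SM.Meas

/-!
# From periodic orbits of the standard map to itineraries
-/

set_option autoImplicit false

namespace Pool.Agent.U467.SM

open Real MeasureTheory

/-- the lift `(x, y) ↦ (2x - y + a sin 2πx, x)` of the standard map `S_a` to the plane -/
noncomputable def F (a : ℝ) (p : ℝ × ℝ) : ℝ × ℝ := (2 * p.1 - p.2 + a * sin (2 * π * p.1), p.1)

/-- `S_a^n` fixes the class of `p` modulo `ℤ²` -/
def IsPer (a : ℝ) (n : ℕ) (p : ℝ × ℝ) : Prop := ∃ i j : ℤ, (F a)^[n] p = (p.1 + i, p.2 + j)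

/-- the trace of the derivative of the `n`-th iterate at `p` -/
noncomputable def tr (a : ℝ) (n : ℕ) (p : ℝ × ℝ) : ℝ :=
  LinearMap.trace ℝ (ℝ × ℝ) (fderiv ℝ (F a)^[n] p : (ℝ × ℝ) →ₗ[ℝ] (ℝ × ℝ))

/-- the matrix `(L, -1; 1, 0)` -/
noncomputable def TT (L : ℝ) : (ℝ × ℝ) →L[ℝ] (ℝ × ℝ) :=
  (L • ContinuousLinearMap.fst ℝ ℝ ℝ - ContinuousLinearMap.snd ℝ ℝ ℝ).prod
    (ContinuousLinearMap.fst ℝ ℝ ℝ)

theorem TT_apply (L : ℝ) (v : ℝ × ℝ) : TT L v = (L * v.1 - v.2, v.1) := by simp [TT]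

theorem hasFDerivAt_F (a : ℝ) (p : ℝ × ℝ) : HasFDerivAt (F a) (TT (mult a p.1)) p := by
  have h1 : HasFDerivAt (fun q : ℝ × ℝ => q.1) (ContinuousLinearMap.fst ℝ ℝ ℝ) p := hasFDerivAt_fst
  have h2 : HasFDerivAt (fun q : ℝ × ℝ => q.2) (ContinuousLinearMap.snd ℝ ℝ ℝ) p := hasFDerivAt_snd
  have h3 : HasFDerivAt (fun q : ℝ × ℝ => sin (2 * π * q.1))
      ((2 * π * cos (2 * π * p.1)) • ContinuousLinearMap.fst ℝ ℝ ℝ) p :=
    (hasDerivAt_sin2 p.1).comp_hasFDerivAt p h1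
  have h4 := ((h1.const_mul 2).sub h2).add (h3.const_mul a)
  have h5 := h4.prodMk h1
  refine h5.congr_fderiv ?_
  ext <;> simp [TT, mult]
  ring

/-- derivative of the iterates -/
noncomputable def DD (a : ℝ) : ℕ → (ℝ × ℝ) → ((ℝ × ℝ) →L[ℝ] (ℝ × ℝ))
  | 0, _ => ContinuousLinearMap.id ℝ (ℝ × ℝ)
  | n + 1, p => (TT (mult a ((F a)^[n] p).1)).comp (DD a n p)

theorem hasFDerivAt_iter (a : ℝ) (n : ℕ) (p : ℝ × ℝ) : HasFDerivAt (F a)^[n] (DD a n p) p := by
  induction n with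
  | zero => exact hasFDerivAt_id p
  | succ n ih =>
    rw [Function.iterate_succ']
    exact (hasFDerivAt_F a _).comp p ih

theorem tr_eq (a : ℝ) (n : ℕ) (p : ℝ × ℝ) :
    tr a n p = LinearMap.trace ℝ (ℝ × ℝ) (DD a n p : (ℝ × ℝ) →ₗ[ℝ] (ℝ × ℝ)) := by
  unfold tr; rw [(hasFDerivAt_iter a n p).fderiv]

theorem trace_two (f : (ℝ × ℝ) →ₗ[ℝ] (ℝ × ℝ)) :
    LinearMap.trace ℝ (ℝ × ℝ) f = (f (1, 0)).1 + (f (0, 1)).2 := by
  rw [LinearMap.trace_eq_matrix_trace ℝ (Module.Basis.finTwoProd ℝ)]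
  simp [Matrix.trace, LinearMap.toMatrix_apply, Fin.sum_univ_two]

/-- the sequence of the multipliers -/
noncomputable def LL (a : ℝ) (p : ℝ × ℝ) (k : ℕ) : ℝ := mult a ((F a)^[k] p).1

theorem DD_apply (a : ℝ) (p v : ℝ × ℝ) {n : ℕ} (hn : 1 ≤ n) :
    DD a n p v = (fy (LL a p) n * (LL a p 0 * v.1 - v.2) + fc (LL a p) n * v.1,
      fy (LL a p) (n - 1) * (LL a p 0 * v.1 - v.2) + fc (LL a p) (n - 1) * v.1) := by
  induction n, hn using Nat.le_induction with
  | base => simp [DD, TT_apply, fy, fc, LL]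
  | succ n hn ih =>
    have e : DD a (n + 1) p v = TT (LL a p n) (DD a n p v) := rfl
    rw [e, ih, TT_apply, fy_rec _ hn, fc_rec _ hn, Nat.add_sub_cancel]
    ext
    · simp only; ring
    · simp only

theorem tr_formula (a : ℝ) (p : ℝ × ℝ) {n : ℕ} (hn : 1 ≤ n) :
    tr a n p = LL a p 0 * fy (LL a p) n + fc (LL a p) n - fy (LL a p) (n - 1) := by
  rw [tr_eq, trace_two]
  simp only [ContinuousLinearMap.coe_coe]
  rw [DD_apply a p _ hn, DD_apply a p _ hn]
  simp only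
  ring

/-! ### Translations -/

theorem mult_add_int (a x : ℝ) (i : ℤ) : mult a (x + i) = mult a x := by
  unfold mult
  have : 2 * π * (x + i) = 2 * π * x + i * (2 * π) := by ring
  rw [this, cos_add_int_mul_two_pi]

theorem sin_add_int (x : ℝ) (i : ℤ) : sin (2 * π * (x + i)) = sin (2 * π * x) := by
  have : 2 * π * (x + i) = 2 * π * x + i * (2 * π) := by ring
  rw [this, sin_add_int_mul_two_pi]

theorem F_trans (a : ℝ) (p : ℝ × ℝ) (i j : ℤ) (n : ℕ) :
    ∃ i' j' : ℤ, (F a)^[n] (p.1 + i, p.2 + j) = (((F a)^[n] p).1 + i', ((F a)^[n] p).2 + j') := by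
  induction n with
  | zero => exact ⟨i, j, rfl⟩
  | succ n ih =>
    obtain ⟨i', j', e⟩ := ih
    refine ⟨2 * i' - j', i', ?_⟩
    rw [Function.iterate_succ_apply', Function.iterate_succ_apply', e]
    simp only [F, sin_add_int]
    ext
    · simp only; push_cast; ring
    · simp only

theorem DD_trans (a : ℝ) (p : ℝ × ℝ) (i j : ℤ) (n : ℕ) :
    DD a n (p.1 + i, p.2 + j) = DD a n p := by
  induction n with
  | zero => rfl
  | succ n ih =>
    obtain ⟨i', j', e⟩ := F_trans a p i j n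
    simp only [DD, e, ih, mult_add_int]

theorem DD_add (a : ℝ) (p : ℝ × ℝ) (m k : ℕ) :
    DD a (m + k) p = (DD a m ((F a)^[k] p)).comp (DD a k p) := by
  induction m with
  | zero => simp only [Nat.zero_add, DD, ContinuousLinearMap.id_comp]
  | succ m ih =>
    have e : m + 1 + k = (m + k) + 1 := by ring
    rw [e]
    simp only [DD, ih]
    rw [ContinuousLinearMap.comp_assoc, Function.iterate_add_apply]

theorem LL_shift (a : ℝ) (p : ℝ × ℝ) (j k : ℕ) : LL a ((F a)^[j] p) k = LL a p (j + k) := by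
  unfold LL
  rw [add_comm j k, Function.iterate_add_apply]

theorem IsPer.LL_add {a : ℝ} {n : ℕ} {p : ℝ × ℝ} (h : IsPer a n p) (k : ℕ) :
    LL a p (n + k) = LL a p k := by
  obtain ⟨i, j, e⟩ := h
  obtain ⟨i', j', e'⟩ := F_trans a p i j k
  unfold LL
  rw [add_comm n k, Function.iterate_add_apply, e, e']
  simp only [mult_add_int]

theorem IsPer.shift {a : ℝ} {n : ℕ} {p : ℝ × ℝ} (h : IsPer a n p) (j : ℕ) :
    IsPer a n ((F a)^[j] p) := by
  obtain ⟨i, i2, e⟩ := h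
  obtain ⟨i', j', e'⟩ := F_trans a p i i2 j
  refine ⟨i', j', ?_⟩
  rw [← Function.iterate_add_apply, add_comm, Function.iterate_add_apply, e, e']

theorem IsPer.tr_shift {a : ℝ} {n : ℕ} {p : ℝ × ℝ} (h : IsPer a n p) {j : ℕ} (hj : j ≤ n) :
    tr a n ((F a)^[j] p) = tr a n p := by
  obtain ⟨i, i2, e⟩ := h
  rw [tr_eq, tr_eq]
  have e1 : DD a n p = (DD a (n - j) ((F a)^[j] p)).comp (DD a j p) := by
    rw [← DD_add]; congr 1; omega
  have e2 : DD a n ((F a)^[j] p) = (DD a j p).comp (DD a (n - j) ((F a)^[j] p)) := by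
    have : DD a n ((F a)^[j] p) = (DD a j ((F a)^[n - j] ((F a)^[j] p))).comp
        (DD a (n - j) ((F a)^[j] p)) := by
      rw [← DD_add]; congr 1; omega
    rw [this, ← Function.iterate_add_apply, Nat.sub_add_cancel hj, e, DD_trans]
  rw [e1, e2]
  exact LinearMap.trace_comp_comm' (DD a (n - j) ((F a)^[j] p) : (ℝ × ℝ) →ₗ[ℝ] (ℝ × ℝ))
    (DD a j p : (ℝ × ℝ) →ₗ[ℝ] (ℝ × ℝ))

/-! ### The itinerary -/

theorem exists_orb {a l : ℝ} {n : ℕ} {p : ℝ × ℝ} (hn : 1 ≤ n) (h : IsPer a n p)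
    (hL : ∀ k, 1 ≤ k → k < n → l ≤ |LL a p k|) (ht : |tr a n p| ≤ 2 * (l / 10) ^ (n - 1)) :
    ∃ m s x, Orb a l n m s x := by
  classical
  obtain ⟨i, j, e⟩ := h
  set X : ℕ → ℝ := fun k => ((F a)^[k] p).1 with hX
  have hXn : X n = X 0 + i := by simp [hX, e]
  have hX2 : ∀ k, 1 ≤ k → ((F a)^[k] p).2 = X (k - 1) := by
    intro k hk
    obtain ⟨q, rfl⟩ : ∃ q, k = q + 1 := ⟨k - 1, by omega⟩
    rw [Function.iterate_succ_apply', Nat.add_sub_cancel]
    rfl
  have hXs : ∀ k, 1 ≤ k → X (k + 1) = 2 * X k - X (k - 1) + a * sin (2 * π * X k) := by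
    intro k hk
    rw [← hX2 k hk]
    simp only [hX]
    rw [Function.iterate_succ_apply']
    rfl
  have hX1 : X 1 = 2 * X 0 - p.2 + a * sin (2 * π * X 0) := by
    simp [hX, F]
  have hp2 : p.2 = X (n - 1) - j := by
    rw [← hX2 n hn, e]; simp
  set z : ℕ → ℤ := fun k => if k = 0 then ⌊X 0 + 1 / 2⌋ else if k = n then ⌊X 0 + 1 / 2⌋ + i else
    ⌊X k + 1 / 4⌋ with hz
  set x : ℕ → ℝ := fun k => X k - z k with hx
  have hz0 : z 0 = ⌊X 0 + 1 / 2⌋ := by simp [hz]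
  have hzn : z n = ⌊X 0 + 1 / 2⌋ + i := by
    simp only [hz]
    rw [if_neg (by omega)]
    simp
  have hzk : ∀ k, 1 ≤ k → k < n → z k = ⌊X k + 1 / 4⌋ := by
    intro k hk hkn
    simp only [hz]
    rw [if_neg (by omega), if_neg (by omega)]
  have hsin : ∀ k, sin (2 * π * x k) = sin (2 * π * X k) := by
    intro k
    have := sin_add_int (x k) (z k)
    rw [← this]
    congr 2
    simp only [hx]; ring
  have hmult : (fun k => mult a (x k)) = LL a p := by
    funext k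
    rw [← mult_add_int a (x k) (z k)]
    simp only [hx, LL]
    congr 1
    ring
  have hx0 : -(1 / 2) ≤ x 0 ∧ x 0 ≤ 1 / 2 := by
    have h1 := Int.floor_le (X 0 + 1 / 2)
    have h2 := Int.lt_floor_add_one (X 0 + 1 / 2)
    simp only [hx, hz0]
    constructor <;> linarith
  have hxk : ∀ k, 1 ≤ k → k < n → -(1 / 4) ≤ x k ∧ x k ≤ 3 / 4 := by
    intro k hk hkn
    have h1 := Int.floor_le (X k + 1 / 4)
    have h2 := Int.lt_floor_add_one (X k + 1 / 4)
    simp only [hx, hzk k hk hkn]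
    constructor <;> linarith
  refine ⟨fun k => if k = 0 then z 1 + z (n - 1) - 2 * z 0 - j else z (k + 1) + z (k - 1) - 2 * z k,
    fun k => if k = 0 then decide (0 ≤ x 0) else decide (x k ≤ 1 / 4), x, ?_⟩
  refine ⟨?_, ?_, ?_, ?_, ?_, ?_, ?_, ?_, ?_⟩
  · simp only [hx, hzn, hz0, hXn]; push_cast; ring
  · intro k hk hkn hs
    rw [if_neg (by omega), decide_eq_true_iff] at hs
    exact ⟨(hxk k hk hkn).1, hs⟩
  · intro k hk hkn hs
    rw [if_neg (by omega), decide_eq_false_iff_not, not_le] at hs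
    exact ⟨hs.le, (hxk k hk hkn).2⟩
  · intro hs
    rw [if_pos rfl, decide_eq_true_iff] at hs
    exact ⟨hs, hx0.2⟩
  · intro hs
    rw [if_pos rfl, decide_eq_false_iff_not, not_le] at hs
    exact ⟨hx0.1, hs.le⟩
  · intro k hk hkn
    have : mult a (x k) = LL a p k := congrFun hmult k
    rw [this]
    exact hL k hk hkn
  · intro k hk hkn
    rw [if_neg (by omega), hsin k]
    have := hXs k hk
    simp only [hx]
    push_cast
    linarith
  · rw [if_pos rfl, hsin 0]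
    simp only [hx]
    push_cast
    linarith
  · have e0 : mult a (x 0) = LL a p 0 := congrFun hmult 0
    rw [hmult, e0, ← tr_formula a p hn]
    exact ht

/-- a periodic orbit with at most one small multiplier gives an itinerary -/
theorem exists_orb' {a l : ℝ} {n : ℕ} {p : ℝ × ℝ} (hn : 1 ≤ n) (h : IsPer a n p)
    (hc : ((Finset.range n).filter (fun k => |LL a p k| < l)).card ≤ 1)
    (ht : |tr a n p| ≤ 2 * (l / 10) ^ (n - 1)) :
    ∃ m s x, Orb a l n m s x := by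
  classical
  -- the index of the pass
  obtain ⟨j, hjn, hj⟩ : ∃ j < n, ∀ k < n, k ≠ j → l ≤ |LL a p k| := by
    by_cases hex : ∃ j < n, |LL a p j| < l
    · obtain ⟨j, hjn, hj⟩ := hex
      refine ⟨j, hjn, fun k hk hkj => ?_⟩
      by_contra hcon
      rw [not_le] at hcon
      apply hkj
      exact Finset.card_le_one.1 hc k (by simp [hk, hcon]) j (by simp [hjn, hj])
    · push Not at hex
      exact ⟨0, by omega, fun k hk _ => hex k hk⟩
  apply exists_orb hn (h.shift j) (l := l)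
  · intro k hk hkn
    rw [LL_shift]
    rcases lt_or_ge (j + k) n with h1 | h1
    · exact hj (j + k) h1 (by omega)
    · have : j + k = n + (j + k - n) := by omega
      rw [this, h.LL_add]
      exact hj _ (by omega) (by omega)
  · rw [h.tr_shift (by omega)]
    exact ht

end Pool.Agent.U467.SM
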