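import Pool.Agent.U467.SM.Dyn

/-!
# Elliptic fixed points: the lower bound
-/

set_option autoImplicit false

namespace Pool.Agent.U467.SM

open Real MeasureTheory

theorem tr_one (a : ℝ) (p : ℝ × ℝ) : tr a 1 p = mult a p.1 := by
  rw [tr_formula a p le_rfl]
  simp [LL, fy, fc]

theorem elliptic_fixed {N : ℕ} (hN : 1 ≤ N) {a : ℝ} (h1 : (N : ℝ) < a) (h2 : a < N + 1 / (10 * N)) :
    ∃ p, IsPer a 1 p ∧ |tr a 1 p| < 2 := by
  have hN1 : (1 : ℝ) ≤ N := by exact_mod_cast hN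
  have ha : 0 < a := by linarith
  have hr1 : (N : ℝ) / a < 1 := by rw [div_lt_one ha]; exact h1
  have hr0 : 0 < (N : ℝ) / a := by positivity
  set θ := arcsin ((N : ℝ) / a) with hθ
  set x := 1 / 2 - θ / (2 * π) with hx
  have hpi := pi_pos
  have e : 2 * π * x = π - θ := by rw [hx]; field_simp
  have hs : sin (2 * π * x) = N / a := by
    rw [e, sin_pi_sub, hθ, sin_arcsin (by linarith) hr1.le]
  have hc : cos (2 * π * x) = -√(1 - ((N : ℝ) / a) ^ 2) := by
    rw [e, cos_pi_sub, hθ, cos_arcsin]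
  refine ⟨(x, x), ⟨N, 0, ?_⟩, ?_⟩
  · simp only [Function.iterate_one, F, hs]
    ext
    · simp only; push_cast; field_simp; ring
    · simp
  · rw [tr_one]
    unfold mult
    simp only [hc]
    set w := a * √(1 - ((N : ℝ) / a) ^ 2) with hw
    have hpos : 0 < 1 - ((N : ℝ) / a) ^ 2 := by nlinarith
    have hw0 : 0 < w := by
      have := Real.sqrt_pos.2 hpos
      positivity
    have hw2 : w ^ 2 = a ^ 2 - N ^ 2 := by
      rw [hw, mul_pow, Real.sq_sqrt hpos.le]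
      field_simp
    have hb : a ^ 2 - (N:ℝ) ^ 2 ≤ 21 / 100 := by
      set ε := 1 / (10 * (N:ℝ)) with hε
      have hε1 : ε * N = 1 / 10 := by rw [hε]; field_simp
      have hε0 : 0 < ε := by positivity
      have hε2 : ε ≤ 1 / 10 := by nlinarith
      nlinarith
    have hw3 : w < 1 / 2 := by nlinarith
    have hp4 := pi_lt_four
    have e2 : 2 + 2 * π * a * -√(1 - ((N : ℝ) / a) ^ 2) = 2 - 2 * π * w := by rw [hw]; ring
    rw [e2, abs_lt]
    have h3 : 0 < π * w := by positivity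
    have h4 : π * w < 4 * (1 / 2) := by
      calc π * w < 4 * w := by gcongr
        _ < 4 * (1 / 2) := by gcongr
    constructor <;> linarith

theorem vol_lower {N : ℕ} (hN : 1 ≤ N) :
    ENNReal.ofReal (1 / (10 * N)) ≤
      volume {a : ℝ | (N : ℝ) ≤ a ∧ a ≤ N + 1 ∧ ∃ p, IsPer a 1 p ∧ |tr a 1 p| < 2} := by
  have hN1 : (1 : ℝ) ≤ N := by exact_mod_cast hN
  have hsub : Set.Ioo (N : ℝ) (N + 1 / (10 * N)) ⊆
      {a : ℝ | (N : ℝ) ≤ a ∧ a ≤ N + 1 ∧ ∃ p, IsPer a 1 p ∧ |tr a 1 p| < 2} := by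
    rintro a ⟨h1, h2⟩
    refine ⟨h1.le, ?_, elliptic_fixed hN h1 h2⟩
    have : 1 / (10 * (N:ℝ)) ≤ 1 := by
      rw [div_le_one (by positivity)]; linarith
    linarith
  calc ENNReal.ofReal (1 / (10 * N)) = volume (Set.Ioo (N : ℝ) (N + 1 / (10 * N))) := by
        rw [Real.volume_Ioo]; congr 1; ring
    _ ≤ _ := measure_mono hsub

end Pool.Agent.U467.SM
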