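import Mathlib

/-!
# Linear second order recursions with large coefficients

`ξ (k + 1) + ξ (k - 1) = L k ξ k` for `1 ≤ k < n` with `|L k| ≥ l > 2`: maximum principle, fundamental
solutions, boundary value problems, dependence on the coefficients.
-/

set_option autoImplicit false

namespace Pool.Agent.U467.SM

/-- maximum principle -/
theorem maxp {n : ℕ} {l η B : ℝ} (hl : 2 < l) (hB : 0 ≤ B) (L ζ : ℕ → ℝ)
    (h0 : |ζ 0| ≤ B) (hn : |ζ n| ≤ B)
    (hL : ∀ k, 1 ≤ k → k < n → l ≤ |L k|)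
    (h : ∀ k, 1 ≤ k → k < n → |L k * ζ k - ζ (k + 1) - ζ (k - 1)| ≤ η) :
    ∀ k, 1 ≤ k → k < n → |ζ k| ≤ (2 * B + η) / (l - 2) := by
  intro k0 hk0 hk0n
  have hne : (Finset.Ico 1 n).Nonempty := ⟨k0, by simp [hk0, hk0n]⟩
  obtain ⟨k, hk, hmax⟩ := Finset.exists_max_image (Finset.Ico 1 n) (fun k => |ζ k|) hne
  rw [Finset.mem_Ico] at hk
  have hM : |ζ k0| ≤ |ζ k| := hmax k0 (by simp [hk0, hk0n])
  refine hM.trans ?_
  set M := |ζ k| with hMdef
  have hM0 : 0 ≤ M := abs_nonneg _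
  have hnb : ∀ j, j ≤ n → |ζ j| ≤ M + B := by
    intro j hj
    rcases Nat.eq_zero_or_pos j with rfl | hj0
    · linarith
    rcases hj.lt_or_eq with hlt | rfl
    · have := hmax j (by simp; omega)
      linarith
    · linarith
  have h1 := hnb (k + 1) (by omega)
  have h2 := hnb (k - 1) (by omega)
  have h3 := h k hk.1 hk.2
  have h4 := hL k hk.1 hk.2
  have h5 : |L k| * M ≤ 2 * (M + B) + η := by
    have : |L k * ζ k| ≤ |L k * ζ k - ζ (k + 1) - ζ (k - 1)| + |ζ (k + 1)| + |ζ (k - 1)| := by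
      have e : L k * ζ k = (L k * ζ k - ζ (k + 1) - ζ (k - 1)) + ζ (k + 1) + ζ (k - 1) := by ring
      calc |L k * ζ k| = |(L k * ζ k - ζ (k + 1) - ζ (k - 1)) + ζ (k + 1) + ζ (k - 1)| := by rw [← e]
        _ ≤ |(L k * ζ k - ζ (k + 1) - ζ (k - 1)) + ζ (k + 1)| + |ζ (k - 1)| := abs_add_le _ _
        _ ≤ _ := by gcongr; exact abs_add_le _ _
    rw [abs_mul] at this
    linarith
  have h6 : l * M ≤ |L k| * M := mul_le_mul_of_nonneg_right h4 hM0
  rw [le_div_iff₀ (by linarith)]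
  nlinarith

/-- fundamental solution with `ξ 0 = 0`, `ξ 1 = 1` -/
def fy (L : ℕ → ℝ) : ℕ → ℝ
  | 0 => 0
  | 1 => 1
  | k + 2 => L (k + 1) * fy L (k + 1) - fy L k

/-- fundamental solution with `ξ 0 = 1`, `ξ 1 = 0` -/
def fc (L : ℕ → ℝ) : ℕ → ℝ
  | 0 => 1
  | 1 => 0
  | k + 2 => L (k + 1) * fc L (k + 1) - fc L k

theorem fy_rec (L : ℕ → ℝ) {k : ℕ} (hk : 1 ≤ k) : fy L (k + 1) = L k * fy L k - fy L (k - 1) := by
  obtain ⟨j, rfl⟩ : ∃ j, k = j + 1 := ⟨k - 1, by omega⟩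
  simp [fy]

theorem fc_rec (L : ℕ → ℝ) {k : ℕ} (hk : 1 ≤ k) : fc L (k + 1) = L k * fc L k - fc L (k - 1) := by
  obtain ⟨j, rfl⟩ : ∃ j, k = j + 1 := ⟨k - 1, by omega⟩
  simp [fc]

theorem fy_growth (L r : ℕ → ℝ) (n : ℕ) (hr : ∀ k, 1 ≤ k → k < n → 1 ≤ r k)
    (hL : ∀ k, 1 ≤ k → k < n → r k + 1 ≤ |L k|) :
    ∀ k, 1 ≤ k → k ≤ n → ∏ j ∈ Finset.Ico 1 k, r j ≤ |fy L k| ∧ |fy L (k - 1)| ≤ |fy L k| := by
  intro k hk
  induction k, hk using Nat.le_induction with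
  | base => intro _; simp [fy]
  | succ k hk ih =>
    intro hkn
    obtain ⟨i1, i2⟩ := ih (by omega)
    have hr1 := hr k hk (by omega)
    have hL1 := hL k hk (by omega)
    have hy : r k * |fy L k| ≤ |fy L (k + 1)| := by
      rw [fy_rec L hk]
      have h1 : |L k * fy L k| - |fy L (k - 1)| ≤ |L k * fy L k - fy L (k - 1)| :=
        abs_sub_abs_le_abs_sub _ _
      rw [abs_mul] at h1
      have h2 : (r k + 1) * |fy L k| ≤ |L k| * |fy L k| :=
        mul_le_mul_of_nonneg_right hL1 (abs_nonneg _)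
      nlinarith
    constructor
    · rw [Finset.prod_Ico_succ_top hk, mul_comm]
      calc r k * ∏ j ∈ Finset.Ico 1 k, r j ≤ r k * |fy L k| :=
            mul_le_mul_of_nonneg_left i1 (by linarith)
        _ ≤ _ := hy
    · rw [Nat.add_sub_cancel]
      have : 1 * |fy L k| ≤ r k * |fy L k| := mul_le_mul_of_nonneg_right hr1 (abs_nonneg _)
      linarith

theorem wronski (L : ℕ → ℝ) {n : ℕ} (hn : 1 ≤ n) :
    fc L (n - 1) * fy L n - fc L n * fy L (n - 1) = 1 := by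
  induction n, hn using Nat.le_induction with
  | base => simp [fc, fy]
  | succ k hk ih =>
    rw [Nat.add_sub_cancel, fy_rec L hk, fc_rec L hk]
    linarith

/-- solution with boundary values `1` at `0` and `0` at `n` -/
noncomputable def vv (L : ℕ → ℝ) (n k : ℕ) : ℝ := fc L k - fc L n / fy L n * fy L k

/-- solution with boundary values `0` at `0` and `1` at `n` -/
noncomputable def vs (L : ℕ → ℝ) (n k : ℕ) : ℝ := fy L k / fy L n

theorem vv_zero (L : ℕ → ℝ) (n : ℕ) : vv L n 0 = 1 := by simp [vv, fc, fy]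

theorem vs_zero (L : ℕ → ℝ) (n : ℕ) : vs L n 0 = 0 := by simp [vs, fy]

theorem vv_n {L : ℕ → ℝ} {n : ℕ} (h : fy L n ≠ 0) : vv L n n = 0 := by
  unfold vv; field_simp; ring

theorem vs_n {L : ℕ → ℝ} {n : ℕ} (h : fy L n ≠ 0) : vs L n n = 1 := by
  unfold vs; field_simp

theorem vv_rec (L : ℕ → ℝ) (n : ℕ) {k : ℕ} (hk : 1 ≤ k) :
    L k * vv L n k - vv L n (k + 1) - vv L n (k - 1) = 0 := by
  unfold vv; rw [fy_rec L hk, fc_rec L hk]; ring

theorem vs_rec (L : ℕ → ℝ) (n : ℕ) {k : ℕ} (hk : 1 ≤ k) :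
    L k * vs L n k - vs L n (k + 1) - vs L n (k - 1) = 0 := by
  unfold vs; rw [fy_rec L hk]; ring

theorem vs_one (L : ℕ → ℝ) (n : ℕ) : vs L n 1 = 1 / fy L n := by simp [vs, fy]

theorem vv_pred {L : ℕ → ℝ} {n : ℕ} (hn : 1 ≤ n) (h : fy L n ≠ 0) :
    vv L n (n - 1) = 1 / fy L n := by
  have := wronski L hn
  unfold vv
  field_simp
  linarith

/-- the number `e` with `trace = fy n * (L 0 - e)` -/
noncomputable def ee (L : ℕ → ℝ) (n : ℕ) : ℝ := vv L n 1 + vs L n (n - 1)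

theorem trace_formula {L : ℕ → ℝ} {n : ℕ} (h : fy L n ≠ 0) (L0 : ℝ) :
    L0 * fy L n + fc L n - fy L (n - 1) = fy L n * (L0 - ee L n) := by
  unfold ee vv vs
  simp only [fc, fy]
  field_simp
  ring

section bounds

variable {n : ℕ} {l : ℝ} (hl : 2 < l)

include hl in
theorem vv_bound {L : ℕ → ℝ} (h : fy L n ≠ 0) (hL : ∀ k, 1 ≤ k → k < n → l ≤ |L k|) :
    ∀ k, 1 ≤ k → k < n → |vv L n k| ≤ 2 / (l - 2) := by
  have := maxp (n := n) (η := 0) (B := 1) hl zero_le_one L (vv L n) (by rw [vv_zero]; simp)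
    (by rw [vv_n h]; simp) hL (fun k hk _ => by rw [vv_rec L n hk]; simp)
  intro k hk hkn
  have := this k hk hkn
  simpa using this

include hl in
theorem vs_bound {L : ℕ → ℝ} (h : fy L n ≠ 0) (hL : ∀ k, 1 ≤ k → k < n → l ≤ |L k|) :
    ∀ k, 1 ≤ k → k < n → |vs L n k| ≤ 2 / (l - 2) := by
  have := maxp (n := n) (η := 0) (B := 1) hl zero_le_one L (vs L n) (by rw [vs_zero]; simp)
    (by rw [vs_n h]; simp) hL (fun k hk _ => by rw [vs_rec L n hk]; simp)
  intro k hk hkn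
  have := this k hk hkn
  simpa using this

include hl in
/-- `|e| ≤ 4 / (l - 2)` -/
theorem ee_bound {L : ℕ → ℝ} (hn : 1 ≤ n) (h : fy L n ≠ 0) (hL : ∀ k, 1 ≤ k → k < n → l ≤ |L k|) :
    |ee L n| ≤ 4 / (l - 2) := by
  have h2 : (0:ℝ) ≤ 4 / (l - 2) := div_nonneg (by norm_num) (by linarith)
  rcases hn.lt_or_eq with hn1 | hn1
  · have a1 := vv_bound hl h hL 1 le_rfl hn1
    have a2 := vs_bound hl h hL (n - 1) (by omega) (by omega)
    calc |ee L n| ≤ |vv L n 1| + |vs L n (n - 1)| := abs_add_le _ _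
      _ ≤ 2 / (l - 2) + 2 / (l - 2) := add_le_add a1 a2
      _ = 4 / (l - 2) := by ring
  · subst hn1
    simp [ee, vv, vs, fc, fy, h2]

include hl in
/-- dependence of `e` on the coefficients -/
theorem ee_lip {L L' : ℕ → ℝ} {ε : ℝ} (hn : 1 ≤ n) (h : fy L n ≠ 0) (h' : fy L' n ≠ 0)
    (hL : ∀ k, 1 ≤ k → k < n → l ≤ |L k|) (hL' : ∀ k, 1 ≤ k → k < n → l ≤ |L' k|)
    (hε : 0 ≤ ε) (hd : ∀ k, 1 ≤ k → k < n → |L k - L' k| ≤ ε) :
    |ee L n - ee L' n| ≤ 4 * ε / (l - 2) ^ 2 := by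
  have hl2 : 0 < l - 2 := by linarith
  rcases hn.lt_or_eq with hn1 | hn1
  · have key : ∀ (v v' : ℕ → ℝ), v 0 = v' 0 → v n = v' n →
        (∀ k, 1 ≤ k → L k * v k - v (k + 1) - v (k - 1) = 0) →
        (∀ k, 1 ≤ k → L' k * v' k - v' (k + 1) - v' (k - 1) = 0) →
        (∀ k, 1 ≤ k → k < n → |v' k| ≤ 2 / (l - 2)) →
        ∀ k, 1 ≤ k → k < n → |v k - v' k| ≤ 2 * ε / (l - 2) ^ 2 := by
      intro v v' e0 en r r' b k hk hkn
      have := maxp (n := n) (η := ε * (2 / (l - 2))) (B := 0) hl le_rfl L (fun k => v k - v' k)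
        (by simp [e0]) (by simp [en]) hL (fun k hk hkn => by
          have e : L k * (v k - v' k) - (v (k + 1) - v' (k + 1)) - (v (k - 1) - v' (k - 1)) =
              - ((L k - L' k) * v' k) := by
            have := r k hk
            have := r' k hk
            linarith
          rw [e, abs_neg, abs_mul]
          exact mul_le_mul (hd k hk hkn) (b k hk hkn) (abs_nonneg _) hε) k hk hkn
      refine this.trans (le_of_eq ?_)
      field_simp
      ring
    have a1 := key (vv L n) (vv L' n) (by rw [vv_zero, vv_zero]) (by rw [vv_n h, vv_n h'])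
      (fun k hk => vv_rec L n hk) (fun k hk => vv_rec L' n hk) (vv_bound hl h' hL') 1 le_rfl hn1
    have a2 := key (vs L n) (vs L' n) (by rw [vs_zero, vs_zero]) (by rw [vs_n h, vs_n h'])
      (fun k hk => vs_rec L n hk) (fun k hk => vs_rec L' n hk) (vs_bound hl h' hL')
      (n - 1) (by omega) (by omega)
    have e : ee L n - ee L' n = (vv L n 1 - vv L' n 1) + (vs L n (n - 1) - vs L' n (n - 1)) := by
      unfold ee; ring
    rw [e]
    calc _ ≤ |vv L n 1 - vv L' n 1| + |vs L n (n - 1) - vs L' n (n - 1)| := abs_add_le _ _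
      _ ≤ _ := add_le_add a1 a2
      _ = _ := by ring
  · subst hn1
    have : (0:ℝ) ≤ 4 * ε / (l - 2) ^ 2 := by positivity
    simpa [ee, vv, vs, fc, fy] using this

end bounds

end Pool.Agent.U467.SM
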