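import Pool.Agent.U467.SM.Sums

/-!
# The measure of the parameters
-/

set_option autoImplicit false

namespace Pool.Agent.U467.SM

open Real MeasureTheory

/-- extension of a finite itinerary -/
def ext {n : ℕ} (f : Fin n → ℤ × Bool) (k : ℕ) : ℤ × Bool := if h : k < n then f ⟨k, h⟩ else (0, true)

theorem Orb.congr {a l : ℝ} {n : ℕ} {m m' : ℕ → ℤ} {s s' : ℕ → Bool} {x : ℕ → ℝ}
    (h : Orb a l n m s x) (hn : 1 ≤ n) (hm : ∀ k, k < n → m k = m' k)
    (hs : ∀ k, k < n → s k = s' k) : Orb a l n m' s' x where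
  xn := h.xn
  brt := fun k hk hkn e => h.brt k hk hkn (by rw [hs k hkn]; exact e)
  brf := fun k hk hkn e => h.brf k hk hkn (by rw [hs k hkn]; exact e)
  br0t := fun e => h.br0t (by rw [hs 0 hn]; exact e)
  br0f := fun e => h.br0f (by rw [hs 0 hn]; exact e)
  big := h.big
  eq := fun k hk hkn => by rw [← hm k hkn]; exact h.eq k hk hkn
  eq0 := by rw [← hm 0 hn]; exact h.eq0
  tr := h.tr

/-- the possible steps of an itinerary -/
noncomputable def Tset (N k : ℕ) : Finset (ℤ × Bool) :=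
  if k = 0 then Finset.Icc ((N : ℤ) - 4) ((N : ℤ) + 4) ×ˢ {true} ∪
    Finset.Icc (-(N : ℤ) - 4) (-(N : ℤ) + 4) ×ˢ {false}
  else Finset.Icc (-((N + 4 : ℕ) : ℤ)) ((N + 4 : ℕ) : ℤ) ×ˢ Finset.univ

theorem Orb.abs_sub_le {a l : ℝ} {n : ℕ} {m : ℕ → ℤ} {s : ℕ → Bool} {x : ℕ → ℝ}
    (h : Orb a l n m s x) {i j k : ℕ} (hi : i ≤ n) (hj : j ≤ n) (hk : k ≤ n) :
    |x i + x j - 2 * x k| ≤ 3 := by
  have a1 := h.le34 hi
  have a2 := h.le34 hj
  have a3 := h.le34 hk
  rw [abs_le] at *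
  constructor <;> linarith

theorem Orb.mem_Tset {N : ℕ} {a l : ℝ} {n : ℕ} {m : ℕ → ℤ} {s : ℕ → Bool} {x : ℕ → ℝ}
    (h : Orb a l n m s x) (hn : 1 ≤ n) (hl : 100 ≤ l) (hlN : l ^ 2 ≤ N) (ha : (N : ℝ) ≤ a)
    (ha2 : a ≤ N + 1) {k : ℕ} (hk : k < n) : (m k, s k) ∈ Tset N k := by
  have hN : (10000 : ℝ) ≤ N := by nlinarith
  have hapos : 0 < a := by linarith
  unfold Tset
  split_ifs with hk0
  · subst hk0
    have h1 := h.eq0
    have h2 := h.abs_sub_le (i := 1) (j := n - 1) (k := 0) hn (by omega) (by omega)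
    have h3 := h.cos_small hn hl hN ha
    set c := cos (2 * π * x 0)
    set σ := sin (2 * π * x 0) with hσ
    have h4 : σ ^ 2 + c ^ 2 = 1 := sin_sq_add_cos_sq _
    have hN0 : (0:ℝ) < N := by linarith
    have h5 : c ^ 2 ≤ (1 / N) ^ 2 := by
      rw [← sq_abs c]; gcongr
    have ht : (1 / (N:ℝ)) ^ 2 ≤ 1 / 10000 * (1 / N) := by
      have : 1 / (N:ℝ) ≤ 1 / 10000 := one_div_le_one_div_of_le (by norm_num) hN
      have h0 : 0 < 1 / (N:ℝ) := by positivity
      nlinarith
    have hmul : 1 / (N:ℝ) * N = 1 := by field_simp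
    have hb : 1 - 1 / (N:ℝ) ≤ |σ| := by
      by_contra hcon
      rw [not_le] at hcon
      have h0 := abs_nonneg σ
      have h6 : |σ| ^ 2 = σ ^ 2 := sq_abs σ
      have h7 : 0 < 1 / (N:ℝ) := by positivity
      have h8 : 1 / (N:ℝ) ≤ 1 / 10000 := one_div_le_one_div_of_le (by norm_num) hN
      nlinarith
    have hσ1 : |σ| ≤ 1 := abs_sin_le_one _
    rw [abs_le] at h2
    have hp := pi_pos
    cases hs : s 0
    · have h6 := h.br0f hs
      have h7 : σ ≤ 0 := by
        rw [hσ]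
        apply sin_nonpos_of_nonpos_of_neg_pi_le <;> nlinarith
      rw [abs_of_nonpos h7] at hb hσ1
      have h8 : a * σ ≤ - (N - 1) := by
        have : a * σ ≤ a * (-(1 - 1 / (N:ℝ))) := by gcongr; linarith
        nlinarith
      have h9 : -(N + 1) ≤ a * σ := by nlinarith
      have b1 : (-(N:ℤ) - 4 : ℝ) ≤ (m 0 : ℝ) := by push_cast; linarith
      have b2 : (m 0 : ℝ) ≤ (-(N:ℤ) + 4 : ℝ) := by push_cast; linarith
      rw [Finset.mem_union]
      right
      rw [Finset.mem_product]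
      simp only [Finset.mem_Icc, Finset.mem_singleton, and_true]
      exact ⟨by exact_mod_cast b1, by exact_mod_cast b2⟩
    · have h6 := h.br0t hs
      have h7 : 0 ≤ σ := by
        rw [hσ]
        apply sin_nonneg_of_nonneg_of_le_pi <;> nlinarith
      rw [abs_of_nonneg h7] at hb hσ1
      have h8 : N - 1 ≤ a * σ := by
        have : a * (1 - 1 / (N:ℝ)) ≤ a * σ := by gcongr
        have h0 : 0 ≤ 1 - 1 / (N:ℝ) := by
          rw [sub_nonneg, div_le_one hN0]; linarith
        nlinarith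
      have h9 : a * σ ≤ N + 1 := by nlinarith
      have b1 : ((N:ℤ) - 4 : ℝ) ≤ (m 0 : ℝ) := by push_cast; linarith
      have b2 : (m 0 : ℝ) ≤ ((N:ℤ) + 4 : ℝ) := by push_cast; linarith
      rw [Finset.mem_union]
      left
      rw [Finset.mem_product]
      simp only [Finset.mem_Icc, Finset.mem_singleton, and_true]
      exact ⟨by exact_mod_cast b1, by exact_mod_cast b2⟩
  · have h1 := h.eq k (by omega) hk
    have h2 := h.abs_sub_le (i := k + 1) (j := k - 1) (k := k) (by omega) (by omega) (by omega)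
    have h3 : |a * sin (2 * π * x k)| ≤ N + 1 := by
      rw [abs_mul, abs_of_nonneg (by linarith)]
      have := abs_sin_le_one (2 * π * x k)
      have := abs_nonneg (sin (2 * π * x k))
      nlinarith
    rw [abs_le] at h2 h3
    have b1 : (-((N + 4 : ℕ) : ℤ) : ℝ) ≤ (m k : ℝ) := by push_cast; linarith
    have b2 : (m k : ℝ) ≤ (((N + 4 : ℕ) : ℤ) : ℝ) := by push_cast; linarith
    rw [Finset.mem_product]
    simp only [Finset.mem_Icc, Finset.mem_univ, and_true]
    exact ⟨by exact_mod_cast b1, by exact_mod_cast b2⟩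

/-- weights -/
noncomputable def gw (N : ℕ) (l : ℝ) (k : ℕ) (p : ℤ × Bool) : ℝ :=
  if k = 0 then 12000 / N else (l / 10 / (lam N l p.1 - 2)) ^ 2

theorem gw_nonneg (N : ℕ) (l : ℝ) (k : ℕ) (p : ℤ × Bool) : 0 ≤ gw N l k p := by
  unfold gw; split_ifs <;> positivity

theorem sum_gw_zero (N : ℕ) (l : ℝ) : ∑ p ∈ Tset N 0, gw N l 0 p ≤ 216000 / N := by
  have h1 : ∀ p ∈ Tset N 0, gw N l 0 p = 12000 / N := fun p _ => by simp [gw]
  rw [Finset.sum_congr rfl h1, Finset.sum_const]
  have hc : (Tset N 0).card ≤ 18 := by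
    unfold Tset
    rw [if_pos rfl]
    refine (Finset.card_union_le _ _).trans ?_
    rw [Finset.card_product, Finset.card_product, Finset.card_singleton, Finset.card_singleton,
      Int.card_Icc, Int.card_Icc]
    omega
  rw [nsmul_eq_mul]
  have : ((Tset N 0).card : ℝ) ≤ 18 := by exact_mod_cast hc
  calc ((Tset N 0).card : ℝ) * (12000 / N) ≤ 18 * (12000 / N) := by gcongr
    _ = _ := by ring

theorem sq_le_of {N : ℕ} {l : ℝ} (hlN : l ^ 2 * (1 + log N) ≤ N) : l ^ 2 ≤ N := by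
  have h1 : 0 ≤ log (N : ℝ) := Real.log_natCast_nonneg N
  have h2 : 0 ≤ l ^ 2 := sq_nonneg l
  nlinarith

theorem sum_gw {N : ℕ} {l : ℝ} (hl : 100 ≤ l) (hlN : l ^ 2 * (1 + log N) ≤ N) {k : ℕ} (hk : k ≠ 0) :
    ∑ p ∈ Tset N k, gw N l k p ≤ 1 / 2 := by
  have hN : (10000 : ℝ) ≤ N := by nlinarith [sq_le_of hlN]
  have h1 : ∀ p ∈ Tset N k, gw N l k p = (l / 10 / (lam N l p.1 - 2)) ^ 2 := fun p _ => by
    simp [gw, hk]
  rw [Finset.sum_congr rfl h1]
  unfold Tset
  rw [if_neg hk, Finset.sum_product]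
  simp only [Finset.sum_const, Finset.card_univ, Fintype.card_bool]
  have := sum_weights hl hlN hN
  rw [← Finset.smul_sum]
  simp only [nsmul_eq_mul]
  push_cast at this ⊢
  linarith

/-- the set of parameters with period `n` -/
def En (N : ℕ) (l : ℝ) (n : ℕ) : Set ℝ :=
  {a | (N : ℝ) ≤ a ∧ a ≤ N + 1 ∧ ∃ m s x, Orb a l n m s x}

theorem vol_En {N : ℕ} {l : ℝ} (hl : 100 ≤ l) (hlN : l ^ 2 * (1 + log N) ≤ N) {n : ℕ} (hn : 1 ≤ n) :
    volume (En N l n) ≤ ENNReal.ofReal (216000 / N * (1 / 2) ^ (n - 1)) := by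
  have hlN' := sq_le_of hlN
  have hN : (10000 : ℝ) ≤ N := by nlinarith
  have hN0 : (0 : ℝ) < N := by linarith
  set S : (Fin n → ℤ × Bool) → Set ℝ := fun f =>
    {a | (N : ℝ) ≤ a ∧ a ≤ N + 1 ∧ ∃ x, Orb a l n (fun k => (ext f k).1) (fun k => (ext f k).2) x}
    with hS
  have hsub : En N l n ⊆ ⋃ f ∈ Fintype.piFinset (fun k : Fin n => Tset N k), S f := by
    rintro a ⟨h2, h3, m, s, x, h⟩
    rw [Set.mem_iUnion₂]
    refine ⟨fun k => (m k, s k), ?_, h2, h3, x, ?_⟩
    · rw [Fintype.mem_piFinset]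
      intro k
      exact h.mem_Tset hn hl hlN' h2 h3 k.2
    · refine h.congr hn (fun k hk => ?_) (fun k hk => ?_) <;> simp [ext, hk]
  have hvol : ∀ f, volume (S f) ≤ ENNReal.ofReal (∏ k : Fin n, gw N l k (f k)) := by
    intro f
    have e : ∏ k : Fin n, gw N l k (f k) = 12000 * uu N l n (fun k => (ext f k).1) ^ 2 / N := by
      have e1 : ∏ k : Fin n, gw N l k (f k) = ∏ k ∈ Finset.range n, gw N l k (ext f k) := by
        rw [← Fin.prod_univ_eq_prod_range (fun k => gw N l k (ext f k)) n]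
        apply Finset.prod_congr rfl
        intro k _
        simp [ext]
      rw [e1, Finset.prod_range_eq_mul_Ico _ hn]
      unfold uu
      rw [← Finset.prod_pow]
      have e2 : ∏ k ∈ Finset.Ico 1 n, gw N l k (ext f k) =
          ∏ k ∈ Finset.Ico 1 n, (l / 10 / (lam N l (ext f k).1 - 2)) ^ 2 := by
        apply Finset.prod_congr rfl
        intro k hk
        rw [Finset.mem_Ico] at hk
        unfold gw
        rw [if_neg (by omega)]
      rw [e2]
      unfold gw
      rw [if_pos rfl]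
      ring
    rw [e]
    refine (Real.volume_le_diam _).trans (Metric.ediam_le ?_)
    rintro a ⟨h2, h3, x, hx⟩ a' ⟨h2', h3', x', hx'⟩
    rw [edist_dist, Real.dist_eq]
    apply ENNReal.ofReal_le_ofReal
    rw [abs_sub_comm]
    exact pair hn hl hlN' h2 h3 h2' h3' hx hx'
  calc volume (En N l n)
      ≤ volume (⋃ f ∈ Fintype.piFinset (fun k : Fin n => Tset N k), S f) := measure_mono hsub
    _ ≤ ∑ f ∈ Fintype.piFinset (fun k : Fin n => Tset N k), volume (S f) :=
        measure_biUnion_finset_le _ _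
    _ ≤ ∑ f ∈ Fintype.piFinset (fun k : Fin n => Tset N k),
          ENNReal.ofReal (∏ k : Fin n, gw N l k (f k)) := Finset.sum_le_sum (fun f _ => hvol f)
    _ = ENNReal.ofReal (∑ f ∈ Fintype.piFinset (fun k : Fin n => Tset N k),
          ∏ k : Fin n, gw N l k (f k)) := by
        rw [ENNReal.ofReal_sum_of_nonneg]
        intro f _
        exact Finset.prod_nonneg (fun k _ => gw_nonneg _ _ _ _)
    _ = ENNReal.ofReal (∏ k : Fin n, ∑ p ∈ Tset N k, gw N l k p) := by
        rw [Finset.prod_univ_sum]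
    _ ≤ _ := by
        apply ENNReal.ofReal_le_ofReal
        rw [Fin.prod_univ_eq_prod_range (fun k => ∑ p ∈ Tset N k, gw N l k p) n,
          Finset.prod_range_eq_mul_Ico _ hn]
        have h1 : ∏ k ∈ Finset.Ico 1 n, ∑ p ∈ Tset N k, gw N l k p ≤ (1 / 2) ^ (n - 1) := by
          calc ∏ k ∈ Finset.Ico 1 n, ∑ p ∈ Tset N k, gw N l k p
              ≤ ∏ k ∈ Finset.Ico 1 n, (1 / 2 : ℝ) := by
                apply Finset.prod_le_prod
                · intro k _; exact Finset.sum_nonneg (fun _ _ => gw_nonneg _ _ _ _)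
                · intro k hk
                  rw [Finset.mem_Ico] at hk
                  exact sum_gw hl hlN (by omega)
            _ = _ := by rw [Finset.prod_const, Nat.card_Ico]
        have h2 := sum_gw_zero N l
        have h3 : 0 ≤ ∏ k ∈ Finset.Ico 1 n, ∑ p ∈ Tset N k, gw N l k p :=
          Finset.prod_nonneg (fun _ _ => Finset.sum_nonneg (fun _ _ => gw_nonneg _ _ _ _))
        gcongr

/-- all parameters in `[N, N + 1]` -/
theorem vol_all {N : ℕ} {l : ℝ} (hl : 100 ≤ l) (hlN : l ^ 2 * (1 + log N) ≤ N) :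
    volume (⋃ n : ℕ, En N l (n + 1)) ≤ ENNReal.ofReal (432000 / N) := by
  calc volume (⋃ n : ℕ, En N l (n + 1)) ≤ ∑' n : ℕ, volume (En N l (n + 1)) :=
        measure_iUnion_le _
    _ ≤ ∑' n : ℕ, ENNReal.ofReal (216000 / N * (1 / 2) ^ n) := by
        apply ENNReal.tsum_le_tsum
        intro n
        have := vol_En hl hlN (n := n + 1) (by omega)
        rwa [Nat.add_sub_cancel] at this
    _ = ENNReal.ofReal (∑' n : ℕ, 216000 / N * (1 / 2) ^ n) := by
        rw [ENNReal.ofReal_tsum_of_nonneg]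
        · intro n; positivity
        · exact summable_geometric_two.mul_left _
    _ = _ := by
        rw [tsum_mul_left, tsum_geometric_two]
        congr 1
        ring

end Pool.Agent.U467.SM
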