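import Pool.Agent.U467.SM.Trig

/-!
# The parameters of one itinerary have small diameter
-/

set_option autoImplicit false

namespace Pool.Agent.U467.SM

open Real

/-- `∏ (l / 10) / (λ(m_k) - 2)` -/
noncomputable def uu (A l : ℝ) (n : ℕ) (m : ℕ → ℤ) : ℝ :=
  ∏ k ∈ Finset.Ico 1 n, l / 10 / (lam A l (m k) - 2)

theorem uu_pos {A l : ℝ} (hl : 3 ≤ l) (n : ℕ) (m : ℕ → ℤ) : 0 < uu A l n m := by
  apply Finset.prod_pos
  intro k _
  have := le_lam A l (m k)
  apply div_pos <;> linarith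

theorem uu_le_one {A l : ℝ} (hl : 3 ≤ l) (n : ℕ) (m : ℕ → ℤ) : uu A l n m ≤ 1 := by
  apply Finset.prod_le_one
  · intro k _
    have := le_lam A l (m k)
    apply div_nonneg <;> linarith
  · intro k _
    have := le_lam A l (m k)
    rw [div_le_one (by linarith)]
    linarith

/-- lower bound for the fundamental solution -/
theorem fy_ge' {A l : ℝ} (hl : 3 ≤ l) {n : ℕ} (hn : 1 ≤ n) (m : ℕ → ℤ) (L : ℕ → ℝ)
    (h : ∀ k, 1 ≤ k → k < n → lam A l (m k) - 1 ≤ |L k|) :
    (l / 10) ^ (n - 1) ≤ uu A l n m * |fy L n| := by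
  have h1 := (fy_growth L (fun k => lam A l (m k) - 2) n
    (fun k _ _ => by have := le_lam A l (m k); linarith)
    (fun k hk hkn => by have := h k hk hkn; linarith) n hn le_rfl).1
  calc (l / 10) ^ (n - 1) = uu A l n m * ∏ j ∈ Finset.Ico 1 n, (lam A l (m j) - 2) := by
        unfold uu
        rw [← Finset.prod_mul_distrib]
        have : ∀ k ∈ Finset.Ico 1 n, l / 10 / (lam A l (m k) - 2) * (lam A l (m k) - 2) = l / 10 := by
          intro k _
          have := le_lam A l (m k)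
          rw [div_mul_cancel₀]
          linarith
        rw [Finset.prod_congr rfl this, Finset.prod_const, Nat.card_Ico]
    _ ≤ _ := by
        have := (uu_pos (A := A) hl n m).le
        gcongr

theorem fy_ge {A l : ℝ} (hl : 10 ≤ l) {n : ℕ} (hn : 1 ≤ n) (m : ℕ → ℤ) (L : ℕ → ℝ)
    (h : ∀ k, 1 ≤ k → k < n → lam A l (m k) - 1 ≤ |L k|) : 1 / uu A l n m ≤ |fy L n| := by
  have h1 := fy_ge' (by linarith) hn m L h
  have h2 : 1 ≤ (l / 10) ^ (n - 1) := one_le_pow₀ (by linarith)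
  rw [div_le_iff₀ (uu_pos (by linarith) n m)]
  linarith

theorem Orb.tr_le {A a l : ℝ} {n : ℕ} {m : ℕ → ℤ} {s : ℕ → Bool} {x : ℕ → ℝ}
    (h : Orb a l n m s x) (hn : 1 ≤ n) (hl : 100 ≤ l) (hA : 10000 ≤ A) (ha : A ≤ a) :
    |mult a (x 0) - ee (fun k => mult a (x k)) n| ≤ 2 * uu A l n m := by
  have hb : ∀ k, 1 ≤ k → k < n → lam A l (m k) - 1 ≤ |mult a (x k)| := fun k hk hkn => by
    have := h.lam_le (by linarith : (0:ℝ) ≤ A) ha (by linarith) hk hkn; linarith
  have h1 := fy_ge' (by linarith) hn m (fun k => mult a (x k)) hb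
  have h1' := fy_ge (by linarith) hn m (fun k => mult a (x k)) hb
  have hu := uu_pos (A := A) (l := l) (by linarith) n m
  have h0 : 0 < |fy (fun k => mult a (x k)) n| := lt_of_lt_of_le (by positivity) h1'
  have h3 : fy (fun k => mult a (x k)) n ≠ 0 := abs_pos.1 h0
  have h4 := h.tr
  rw [trace_formula h3, abs_mul] at h4
  have h5 : |fy (fun k => mult a (x k)) n| * |mult a (x 0) - ee (fun k => mult a (x k)) n| ≤
      |fy (fun k => mult a (x k)) n| * (2 * uu A l n m) := by linarith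
  exact le_of_mul_le_mul_left h5 h0

theorem mvt {f f' : ℝ → ℝ} (h : ∀ x, HasDerivAt f (f' x) x) (x x' : ℝ) :
    ∃ ξ ∈ Set.uIcc x x', f x' - f x = f' ξ * (x' - x) := by
  have hc : Continuous f := continuous_iff_continuousAt.2 fun x => (h x).continuousAt
  rcases lt_trichotomy x x' with hx | hx | hx
  · obtain ⟨ξ, hξ, e⟩ := exists_hasDerivAt_eq_slope f f' hx hc.continuousOn (fun y _ => h y)
    refine ⟨ξ, ?_, ?_⟩
    · rw [Set.uIcc_of_le hx.le]; exact ⟨hξ.1.le, hξ.2.le⟩
    · rw [e, div_mul_cancel₀ _ (by linarith)]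
  · exact ⟨x, Set.left_mem_uIcc, by rw [hx]; simp⟩
  · obtain ⟨ξ, hξ, e⟩ := exists_hasDerivAt_eq_slope f f' hx hc.continuousOn (fun y _ => h y)
    refine ⟨ξ, ?_, ?_⟩
    · rw [Set.uIcc_of_ge hx.le]; exact ⟨hξ.1.le, hξ.2.le⟩
    · rw [e]
      have : x - x' ≠ 0 := by linarith
      field_simp
      ring

theorem hasDerivAt_sin2 (x : ℝ) : HasDerivAt (fun t => sin (2 * π * t)) (2 * π * cos (2 * π * x)) x := by
  have := ((hasDerivAt_id x).const_mul (2 * π)).sin
  simp only [id, mul_one] at this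
  rw [mul_comm (2 * π) (cos _)]
  exact this

theorem hasDerivAt_cos2 (x : ℝ) :
    HasDerivAt (fun t => cos (2 * π * t)) (-(2 * π * sin (2 * π * x))) x := by
  have := ((hasDerivAt_id x).const_mul (2 * π)).cos
  simp only [id, mul_one] at this
  rw [mul_comm (2 * π) (sin _), ← neg_mul]
  exact this

theorem abs_sub_le_of_mem_uIcc {x x' ξ : ℝ} (h : ξ ∈ Set.uIcc x x') : |x - ξ| ≤ |x' - x| := by
  rw [Set.mem_uIcc] at h
  rcases h with ⟨h1, h2⟩ | ⟨h1, h2⟩
  · rw [abs_of_nonpos (by linarith), abs_of_nonneg (by linarith)]; linarith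
  · rw [abs_of_nonneg (by linarith), abs_of_nonpos (by linarith)]; linarith

/-- `|mult a x - mult a' y| ≤ 7 |a' - a| + 41 A |y - x|` -/
theorem mult_sub {A a a' x y d : ℝ} (hA : 10000 ≤ A) (ha0 : A ≤ a) (ha : a ≤ A + 1) (hd : |x - y| ≤ d) :
    |mult a x - mult a' y| ≤ 7 * |a' - a| + 41 * A * d := by
  have hp := pi_gt_three
  have hp4 := pi_lt_d4
  have e : mult a x - mult a' y = 2 * π * a * (cos (2 * π * x) - cos (2 * π * y)) -
      2 * π * (a' - a) * cos (2 * π * y) := by unfold mult; ring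
  have h1 : |2 * π * a * (cos (2 * π * x) - cos (2 * π * y))| ≤ 41 * A * d := by
    rw [abs_mul, abs_of_nonneg (by have : 0 ≤ a := by linarith
                                   positivity)]
    have h2 : |cos (2 * π * x) - cos (2 * π * y)| ≤ 2 * π * d := by
      refine (abs_cos_sub_cos_le _ _).trans ?_
      rw [← mul_sub, abs_mul, abs_of_nonneg (by positivity : (0:ℝ) ≤ 2 * π)]
      gcongr
    have hd0 : 0 ≤ d := (abs_nonneg _).trans hd
    have h3 : 4 * π ^ 2 ≤ 40 := by nlinarith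
    have h4 : (4 * π ^ 2) * a ≤ 41 * A := by
      calc (4 * π ^ 2) * a ≤ 40 * (A + 1) := by
            have : 0 ≤ a := by linarith
            gcongr
        _ ≤ 41 * A := by linarith
    have : 0 ≤ a := by linarith
    calc 2 * π * a * |cos (2 * π * x) - cos (2 * π * y)| ≤ 2 * π * a * (2 * π * d) := by gcongr
      _ = (4 * π ^ 2) * a * d := by ring
      _ ≤ 41 * A * d := by gcongr
  have h2 : |2 * π * (a' - a) * cos (2 * π * y)| ≤ 7 * |a' - a| := by
    rw [abs_mul, abs_mul, abs_of_nonneg (by positivity : (0:ℝ) ≤ 2 * π)]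
    have h3 := abs_cos_le_one (2 * π * y)
    have h4 := abs_nonneg (a' - a)
    calc 2 * π * |a' - a| * |cos (2 * π * y)| ≤ 2 * π * |a' - a| * 1 := by gcongr
      _ ≤ 7 * |a' - a| := by nlinarith
  rw [e]
  calc _ ≤ |2 * π * a * (cos (2 * π * x) - cos (2 * π * y))| + |2 * π * (a' - a) * cos (2 * π * y)| :=
        abs_sub _ _
    _ ≤ _ := by linarith

/-- at the pass the cosine is small -/
theorem Orb.cos_small {A a l : ℝ} {n : ℕ} {m : ℕ → ℤ} {s : ℕ → Bool} {x : ℕ → ℝ}
    (h : Orb a l n m s x) (hn : 1 ≤ n) (hl : 100 ≤ l) (hA : 10000 ≤ A) (ha : A ≤ a) :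
    |cos (2 * π * x 0)| ≤ 1 / A := by
  have hp := pi_gt_three
  have h1 : 1 / uu A l n m ≤ |fy (fun k => mult a (x k)) n| := fy_ge (by linarith) hn m _
    (fun k hk hkn => by have := h.lam_le (by linarith : (0:ℝ) ≤ A) ha (by linarith) hk hkn; linarith)
  have h2 : 0 < |fy (fun k => mult a (x k)) n| :=
    lt_of_lt_of_le (by have := uu_pos (A := A) (l := l) (by linarith) n m; positivity) h1
  have h3 : fy (fun k => mult a (x k)) n ≠ 0 := abs_pos.1 h2
  have h4 := h.tr_le hn hl hA ha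
  have h5 : |mult a (x 0) - ee (fun k => mult a (x k)) n| ≤ 2 := by
    have := uu_le_one (A := A) (l := l) (by linarith) n m
    linarith
  have h6 := ee_bound (l := l) (by linarith) hn h3 h.big
  have h7 : 4 / (l - 2) ≤ 1 / 10 := by
    rw [div_le_div_iff₀ (by linarith) (by norm_num)]; linarith
  have h8 : |mult a (x 0)| ≤ 21 / 10 := by
    have : |mult a (x 0)| ≤ |mult a (x 0) - ee (fun k => mult a (x k)) n| +
        |ee (fun k => mult a (x k)) n| := by
      calc |mult a (x 0)| = |(mult a (x 0) - ee (fun k => mult a (x k)) n) +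
            ee (fun k => mult a (x k)) n| := by rw [sub_add_cancel]
        _ ≤ _ := abs_add_le _ _
    linarith
  have h9 := abs_mult_ge a (x 0) (by linarith)
  rw [le_div_iff₀ (by linarith)]
  have h10 : A * |cos (2 * π * x 0)| ≤ a * |cos (2 * π * x 0)| := by gcongr
  have h11 : 2 * 3 * (A * |cos (2 * π * x 0)|) ≤ 2 * π * (a * |cos (2 * π * x 0)|) := by gcongr
  linarith

/-- between the two passes the sine is at least `9 / 10` -/
theorem sin_big {x x' η ε : ℝ} (b : Bool) (ht : b = true → (0 ≤ x ∧ x ≤ 1 / 2) ∧ (0 ≤ x' ∧ x' ≤ 1 / 2))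
    (hf : b = false → (-(1 / 2) ≤ x ∧ x ≤ 0) ∧ (-(1 / 2) ≤ x' ∧ x' ≤ 0)) (hε : ε ≤ 1 / 10)
    (hx : |cos (2 * π * x)| ≤ ε) (hx' : |cos (2 * π * x')| ≤ ε) (hη : η ∈ Set.uIcc x x') :
    9 / 10 ≤ |sin (2 * π * η)| := by
  have hp := pi_pos
  have key : ∀ y y' z : ℝ, 0 ≤ y → y ≤ 1 / 2 → 0 ≤ y' → y' ≤ 1 / 2 → |cos (2 * π * y)| ≤ ε →
      |cos (2 * π * y')| ≤ ε → z ∈ Set.uIcc y y' → |cos (2 * π * z)| ≤ ε := by
    intro y y' z h1 h2 h3 h4 h5 h6 h7
    have mono : ∀ p q : ℝ, 0 ≤ p → p ≤ q → q ≤ 1 / 2 → cos (2 * π * q) ≤ cos (2 * π * p) := by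
      intro p q hp0 hpq hq
      apply cos_le_cos_of_nonneg_of_le_pi
      · positivity
      · nlinarith
      · gcongr
    rw [abs_le] at h5 h6 ⊢
    rw [Set.mem_uIcc] at h7
    rcases h7 with ⟨h7, h8⟩ | ⟨h7, h8⟩
    · have := mono y z h1 h7 (by linarith)
      have := mono z y' (by linarith) h8 h4
      constructor <;> linarith
    · have := mono y' z h3 h7 (by linarith)
      have := mono z y (by linarith) h8 h2
      constructor <;> linarith
  have hz : |cos (2 * π * η)| ≤ ε := by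
    cases b with
    | true =>
      obtain ⟨⟨a1, a2⟩, a3, a4⟩ := ht rfl
      exact key x x' η a1 a2 a3 a4 hx hx' hη
    | false =>
      obtain ⟨⟨a1, a2⟩, a3, a4⟩ := hf rfl
      have e : ∀ y : ℝ, cos (2 * π * y) = cos (2 * π * -y) := fun y => by
        rw [mul_neg, cos_neg]
      rw [e] at hx hx' ⊢
      refine key (-x) (-x') (-η) (by linarith) (by linarith) (by linarith) (by linarith) hx hx' ?_
      rw [Set.mem_uIcc] at hη ⊢
      rcases hη with ⟨h7, h8⟩ | ⟨h7, h8⟩
      · right; constructor <;> linarith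
      · left; constructor <;> linarith
  have h1 := sin_sq_add_cos_sq (2 * π * η)
  have h2 : cos (2 * π * η) ^ 2 ≤ 1 / 100 := by
    rw [← sq_abs]
    have := abs_nonneg (cos (2 * π * η))
    nlinarith
  have h3 : |sin (2 * π * η)| ^ 2 = sin (2 * π * η) ^ 2 := sq_abs _
  by_contra hcon
  rw [not_le] at hcon
  have := abs_nonneg (sin (2 * π * η))
  nlinarith

theorem pair {A a a' l : ℝ} {n : ℕ} {m : ℕ → ℤ} {s : ℕ → Bool} {x x' : ℕ → ℝ} (hn : 1 ≤ n)
    (hl : 100 ≤ l) (hlA : l ^ 2 ≤ A) (ha : A ≤ a) (ha2 : a ≤ A + 1) (ha' : A ≤ a') (ha2' : a' ≤ A + 1)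
    (h : Orb a l n m s x) (h' : Orb a' l n m s x') :
    |a' - a| ≤ 12000 * uu A l n m ^ 2 / A := by
  have hA : 10000 ≤ A := by nlinarith
  have hA0 : 0 ≤ A := by linarith
  have hApos : 0 < A := by linarith
  have hapos : 0 < a := by linarith
  have hp := pi_gt_three
  choose ξ hξ hξ2 using fun k => mvt hasDerivAt_sin2 (x k) (x' k)
  obtain ⟨η, hη, hη2⟩ := mvt hasDerivAt_cos2 (x 0) (x' 0)
  have c1 := h.cos_small hn hl hA ha
  have c2 := h'.cos_small hn hl hA ha'
  have hε : 1 / A ≤ 1 / 10 := one_div_le_one_div_of_le (by norm_num) (by linarith)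
  have sb : ∀ z ∈ Set.uIcc (x 0) (x' 0), 9 / 10 ≤ |sin (2 * π * z)| := fun z hz =>
    sin_big (s 0) (fun hs => ⟨h.br0t hs, h'.br0t hs⟩) (fun hs => ⟨h.br0f hs, h'.br0f hs⟩) hε c1 c2 hz
  have lt : ∀ k, 1 ≤ k → k < n → lam A l (m k) - 1 ≤ |mult a (ξ k)| := by
    intro k hk hkn
    refine mult_between (by linarith) hlA hA ha ha' ha2' (s k) (fun hs => ?_) (fun hs => ?_)
      (hξ k) (h.big k hk hkn) (h'.big k hk hkn) (by linarith) (h.cosm hA0 ha hk hkn)
      (h'.cosm hA0 ha' hk hkn)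
    · have b1 := h.brt k hk hkn hs
      have b2 := h'.brt k hk hkn hs
      rw [abs_le, abs_le]
      refine ⟨⟨by linarith, by linarith⟩, by linarith, by linarith⟩
    · have b1 := h.brf k hk hkn hs
      have b2 := h'.brf k hk hkn hs
      rw [abs_le, abs_le]
      refine ⟨⟨by linarith, by linarith⟩, by linarith, by linarith⟩
  have l1 : ∀ k, 1 ≤ k → k < n → lam A l (m k) - 1 ≤ |mult a (x k)| := fun k hk hkn => by
    have := h.lam_le hA0 ha (by linarith) hk hkn; linarith
  have l2 : ∀ k, 1 ≤ k → k < n → lam A l (m k) - 1 ≤ |mult a' (x' k)| := fun k hk hkn => by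
    have := h'.lam_le hA0 ha' (by linarith) hk hkn; linarith
  have hll : ∀ k, l - 1 ≤ lam A l (m k) - 1 := fun k => by have := le_lam A l (m k); linarith
  refine core (n := n) (l := l - 1) (A := A) (u := uu A l n m) (δ := a' - a) hn (by linarith)
    (by nlinarith) (uu_pos (by linarith) n m) (uu_le_one (by linarith) n m)
    (by rw [abs_le]; constructor <;> linarith)
    (fun k => mult a (x k)) (fun k => mult a' (x' k)) (fun k => mult a (ξ k))
    (fun k => x' k - x k) (fun k => sin (2 * π * x' k)) (by simp [h.xn, h'.xn])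
    (fun k => abs_sin_le_one _) (sb _ Set.right_mem_uIcc)
    (fun k hk hkn => (hll k).trans (l1 k hk hkn)) (fun k hk hkn => (hll k).trans (l2 k hk hkn))
    (fun k hk hkn => (hll k).trans (lt k hk hkn)) ?_ ?_ ?_ ?_ ?_ ?_
    (fy_ge (by linarith) hn m _ l1) (fy_ge (by linarith) hn m _ l2) (fy_ge (by linarith) hn m _ lt)
    (h.tr_le hn hl hA ha) (h'.tr_le hn hl hA ha')
  · intro k hk hkn
    have e1 := h.eq k hk hkn
    have e2 := h'.eq k hk hkn
    have e3 := hξ2 k
    simp only [mult]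
    linear_combination e2 - e1 - a * e3
  · have e1 := h.eq0
    have e2 := h'.eq0
    have e3 := hξ2 0
    simp only [mult]
    linear_combination e2 - e1 - a * e3
  · intro k _ _
    exact mult_sub hA ha ha2 (le_of_eq (abs_sub_comm _ _))
  · intro k _ _
    have := mult_sub (a' := a) hA ha ha2 (abs_sub_le_of_mem_uIcc (hξ k))
    simp only [sub_self, abs_zero, mul_zero, zero_add] at this
    have h0 := abs_nonneg (a' - a)
    linarith
  · have := mult_sub (a' := a) hA ha ha2 (abs_sub_le_of_mem_uIcc (hξ 0))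
    simp only [sub_self, abs_zero, mul_zero, zero_add] at this
    rw [abs_sub_comm]
    exact this
  · have e : mult a (x 0) - mult a' (x' 0) =
        2 * π * a * (2 * π * sin (2 * π * η)) * (x' 0 - x 0) - 2 * π * (a' - a) * cos (2 * π * x' 0) := by
      simp only [mult]
      linear_combination (-(2 * π * a)) * hη2
    have h1 : |2 * π * (a' - a) * cos (2 * π * x' 0)| ≤ 7 * |a' - a| / A := by
      rw [abs_mul, abs_mul, abs_of_nonneg (by positivity : (0:ℝ) ≤ 2 * π)]
      have hp4 := pi_lt_d4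
      have h4 := abs_nonneg (a' - a)
      calc 2 * π * |a' - a| * |cos (2 * π * x' 0)| ≤ 2 * π * |a' - a| * (1 / A) := by gcongr
        _ ≤ 7 * |a' - a| * (1 / A) := by gcongr; linarith
        _ = _ := by ring
    have h2 : 35 * A * |x' 0 - x 0| ≤ |2 * π * a * (2 * π * sin (2 * π * η)) * (x' 0 - x 0)| := by
      rw [abs_mul, abs_mul, abs_of_nonneg (by positivity : (0:ℝ) ≤ 2 * π * a), abs_mul,
        abs_of_nonneg (by positivity : (0:ℝ) ≤ 2 * π)]
      have h3 := sb η hη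
      have h4 := pi_gt_d4
      have h5 : 35 ≤ 2 * π * (2 * π * (9 / 10)) := by nlinarith
      have h6 : 35 * A ≤ 2 * π * a * (2 * π * |sin (2 * π * η)|) := by
        calc 35 * A ≤ (2 * π * (2 * π * (9 / 10))) * A := by gcongr
          _ = 2 * π * A * (2 * π * (9 / 10)) := by ring
          _ ≤ 2 * π * a * (2 * π * |sin (2 * π * η)|) := by gcongr
      gcongr
    have h3 : |2 * π * a * (2 * π * sin (2 * π * η)) * (x' 0 - x 0)| ≤
        |mult a (x 0) - mult a' (x' 0)| + |2 * π * (a' - a) * cos (2 * π * x' 0)| := by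
      rw [e]
      have := abs_sub_abs_le_abs_sub (2 * π * a * (2 * π * sin (2 * π * η)) * (x' 0 - x 0))
        (2 * π * (a' - a) * cos (2 * π * x' 0))
      linarith
    rw [abs_sub_comm (mult a' (x' 0))]
    linarith

end Pool.Agent.U467.SM
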