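import Pool.Agent.U467.SM.Pair

/-!
# The sum over the itineraries
-/

set_option autoImplicit false

namespace Pool.Agent.U467.SM

open Real

theorem le_sqrt_sq (y : ℝ) : y ≤ √y ^ 2 := by
  rcases le_total 0 y with h | h
  · rw [Real.sq_sqrt h]
  · rw [Real.sqrt_eq_zero_of_nonpos h]; simpa using h

theorem sum_inv_le (M : ℕ) : ∑ i ∈ Finset.range M, 1 / ((i : ℝ) + 2) ≤ 1 + log M := by
  have h1 : ∑ i ∈ Finset.range M, 1 / ((i : ℝ) + 2) ≤ (harmonic M : ℝ) := by
    rw [harmonic]
    push_cast
    apply Finset.sum_le_sum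
    intro i _
    rw [← one_div]
    apply one_div_le_one_div_of_le
    · positivity
    · linarith
  exact h1.trans (harmonic_le_one_add_log M)

theorem sum_natAbs_le (φ : ℕ → ℝ) (hφ : ∀ j, 0 ≤ φ j) (M : ℕ) :
    ∑ m ∈ Finset.Icc (-(M : ℤ)) M, φ m.natAbs ≤ 2 * ∑ j ∈ Finset.range (M + 1), φ j := by
  have hsub : Finset.Icc (-(M : ℤ)) M ⊆
      (Finset.range (M + 1)).image (fun j : ℕ => (j : ℤ)) ∪
        (Finset.range (M + 1)).image (fun j : ℕ => -(j : ℤ)) := by
    intro m hm
    rw [Finset.mem_Icc] at hm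
    rw [Finset.mem_union, Finset.mem_image, Finset.mem_image]
    rcases le_total 0 m with h | h
    · left; exact ⟨m.natAbs, by simp; omega, by simp; omega⟩
    · right; exact ⟨m.natAbs, by simp; omega, by simp only [Int.natCast_natAbs]; rw [abs_of_nonpos h]; ring⟩
  calc ∑ m ∈ Finset.Icc (-(M : ℤ)) M, φ m.natAbs
      ≤ ∑ m ∈ (Finset.range (M + 1)).image (fun j : ℕ => (j : ℤ)) ∪
        (Finset.range (M + 1)).image (fun j : ℕ => -(j : ℤ)), φ m.natAbs :=
        Finset.sum_le_sum_of_subset_of_nonneg hsub (fun _ _ _ => hφ _)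
    _ ≤ ∑ m ∈ (Finset.range (M + 1)).image (fun j : ℕ => (j : ℤ)), φ m.natAbs +
        ∑ m ∈ (Finset.range (M + 1)).image (fun j : ℕ => -(j : ℤ)), φ m.natAbs := by
        rw [← Finset.sum_union_inter]
        have : 0 ≤ ∑ m ∈ (Finset.range (M + 1)).image (fun j : ℕ => (j : ℤ)) ∩
          (Finset.range (M + 1)).image (fun j : ℕ => -(j : ℤ)), φ m.natAbs :=
          Finset.sum_nonneg (fun _ _ => hφ _)
        linarith
    _ = _ := by
        rw [Finset.sum_image (by intro a _ b _ h; simpa using h),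
          Finset.sum_image (by intro a _ b _ h; simpa using h)]
        simp only [Int.natAbs_natCast, Int.natAbs_neg]
        ring

/-- the weight of a step of the itinerary is at most `1 / 4` in the sum over the integers -/
theorem sum_weights {N : ℕ} {l : ℝ} (hl : 100 ≤ l) (hlN : l ^ 2 * (1 + log N) ≤ N)
    (hN : (10000 : ℝ) ≤ N) :
    ∑ m ∈ Finset.Icc (-((N + 4 : ℕ) : ℤ)) ((N + 4 : ℕ) : ℤ), (l / 10 / (lam N l m - 2)) ^ 2 ≤ 1 / 4 := by
  have hN' : 10000 ≤ N := by exact_mod_cast hN
  set φ : ℕ → ℝ := fun j => if N - 4 ≤ j then 105 / 10000 else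
    l ^ 2 * (105 / 10000) / (((N - 5 - j : ℕ) : ℝ) + 2) / N with hφ
  have h1 : ∀ m : ℤ, (l / 10 / (lam N l m - 2)) ^ 2 ≤ φ m.natAbs := by
    intro m
    have hlam : l ≤ lam N l m := le_lam _ _ _
    have h3 : 0 < lam N l m := by linarith
    have h2 : lam N l m ^ 2 * (100 / 105) ≤ (lam N l m - 2) ^ 2 := by nlinarith
    have h4 : (l / 10 / (lam N l m - 2)) ^ 2 ≤ l ^ 2 * (105 / 10000) / lam N l m ^ 2 := by
      rw [div_pow, div_pow, div_le_div_iff₀ (by nlinarith) (by positivity)]
      have : 0 < l ^ 2 := by positivity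
      nlinarith
    refine h4.trans ?_
    simp only [hφ]
    split_ifs with hj
    · rw [div_le_iff₀ (by positivity)]
      have : l ^ 2 ≤ lam N l m ^ 2 := by gcongr
      linarith
    · rw [not_le] at hj
      rw [div_div]
      have hN0 : (0:ℝ) < N := by linarith
      have hcast : (((N - 5 - m.natAbs : ℕ) : ℝ)) = N - 5 - m.natAbs := by
        rw [Nat.cast_sub (by omega), Nat.cast_sub (by omega)]; norm_num
      rw [hcast]
      have habs : |(m : ℝ)| = m.natAbs := by
        rw [Nat.cast_natAbs]; simp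
      have hjr : (m.natAbs : ℝ) ≤ N - 5 := by
        have : m.natAbs + 5 ≤ N := by omega
        have : ((m.natAbs + 5 : ℕ) : ℝ) ≤ N := by exact_mod_cast this
        push_cast at this
        linarith
      have h5 : √((N:ℝ) ^ 2 - (|(m : ℝ)| + 3) ^ 2) ≤ lam N l m := le_max_right _ _
      have h6 : (N:ℝ) ^ 2 - (|(m : ℝ)| + 3) ^ 2 ≤ lam N l m ^ 2 := by
        calc (N:ℝ) ^ 2 - (|(m : ℝ)| + 3) ^ 2 ≤ √((N:ℝ) ^ 2 - (|(m : ℝ)| + 3) ^ 2) ^ 2 :=
              le_sqrt_sq _
          _ ≤ _ := by gcongr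
      rw [habs] at h6
      have hm0 : (0:ℝ) ≤ m.natAbs := by positivity
      have h7 : ((N:ℝ) - 5 - m.natAbs + 2) * N ≤ lam N l m ^ 2 := by nlinarith
      have h8 : 0 < ((N:ℝ) - 5 - m.natAbs + 2) * N := by
        apply mul_pos <;> linarith
      gcongr
  have hφ0 : ∀ j, 0 ≤ φ j := by
    intro j
    simp only [hφ]
    split_ifs <;> positivity
  calc ∑ m ∈ Finset.Icc (-((N + 4 : ℕ) : ℤ)) ((N + 4 : ℕ) : ℤ), (l / 10 / (lam N l m - 2)) ^ 2
      ≤ ∑ m ∈ Finset.Icc (-((N + 4 : ℕ) : ℤ)) ((N + 4 : ℕ) : ℤ), φ m.natAbs :=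
        Finset.sum_le_sum (fun m _ => h1 m)
    _ ≤ 2 * ∑ j ∈ Finset.range (N + 4 + 1), φ j := sum_natAbs_le φ hφ0 (N + 4)
    _ ≤ 1 / 4 := by
        have e : N + 4 + 1 = (N - 4) + 9 := by omega
        rw [e, Finset.sum_range_add]
        have s1 : ∑ i ∈ Finset.range 9, φ (N - 4 + i) = 9 * (105 / 10000) := by
          have : ∀ i ∈ Finset.range 9, φ (N - 4 + i) = 105 / 10000 := by
            intro i _
            simp only [hφ]
            rw [if_pos (by omega)]
          rw [Finset.sum_congr rfl this, Finset.sum_const, Finset.card_range]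
          simp only [nsmul_eq_mul]
          push_cast
          ring
        have s2 : ∑ i ∈ Finset.range (N - 4), φ i ≤ 105 / 10000 := by
          rw [← Finset.sum_range_reflect]
          have : ∀ i ∈ Finset.range (N - 4), φ (N - 4 - 1 - i) =
              l ^ 2 * (105 / 10000) / N * (1 / ((i : ℝ) + 2)) := by
            intro i hi
            rw [Finset.mem_range] at hi
            simp only [hφ]
            rw [if_neg (by omega)]
            have : N - 5 - (N - 4 - 1 - i) = i := by omega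
            rw [this]
            field_simp
          rw [Finset.sum_congr rfl this, ← Finset.mul_sum]
          have hN0 : (0:ℝ) < N := by linarith
          have h9 : log ((N - 4 : ℕ) : ℝ) ≤ log (N : ℝ) := by
            apply Real.log_le_log
            · have : 0 < N - 4 := by omega
              exact_mod_cast this
            · exact_mod_cast Nat.sub_le _ _
          calc l ^ 2 * (105 / 10000) / (N:ℝ) * ∑ i ∈ Finset.range (N - 4), 1 / ((i : ℝ) + 2)
              ≤ l ^ 2 * (105 / 10000) / (N:ℝ) * (1 + log ((N - 4 : ℕ) : ℝ)) := by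
                gcongr; exact sum_inv_le _
            _ ≤ l ^ 2 * (105 / 10000) / (N:ℝ) * (1 + log (N : ℝ)) := by gcongr
            _ = 105 / 10000 * (l ^ 2 * (1 + log N) / N) := by ring
            _ ≤ 105 / 10000 * 1 := by
                gcongr
                rw [div_le_one hN0]
                exact hlN
            _ = _ := by ring
        rw [s1]
        linarith

end Pool.Agent.U467.SM
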