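import Pool.Agent.U467.SM.Core

/-!
# Two non-hyperbolic orbits of the standard map with the same itinerary
-/

set_option autoImplicit false

namespace Pool.Agent.U467.SM

open Real

/-- the multiplier `2 + 2 π a cos 2πx` -/
noncomputable def mult (a x : ℝ) : ℝ := 2 + 2 * π * a * cos (2 * π * x)

/-- lower bound for the multipliers on a branch, in terms of the integer `m` of the itinerary -/
noncomputable def lam (A l : ℝ) (m : ℤ) : ℝ := max l (√(A ^ 2 - (|(m : ℝ)| + 3) ^ 2))

theorem le_lam (A l : ℝ) (m : ℤ) : l ≤ lam A l m := le_max_left _ _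

/-- a periodic orbit with given itinerary, at most one multiplier smaller than `l`, and trace at most
`2 (l / 10) ^ (n - 1)` in absolute value -/
structure Orb (a l : ℝ) (n : ℕ) (m : ℕ → ℤ) (s : ℕ → Bool) (x : ℕ → ℝ) : Prop where
  xn : x n = x 0
  brt : ∀ k, 1 ≤ k → k < n → s k = true → -(1 / 4) ≤ x k ∧ x k ≤ 1 / 4
  brf : ∀ k, 1 ≤ k → k < n → s k = false → 1 / 4 ≤ x k ∧ x k ≤ 3 / 4
  br0t : s 0 = true → 0 ≤ x 0 ∧ x 0 ≤ 1 / 2
  br0f : s 0 = false → -(1 / 2) ≤ x 0 ∧ x 0 ≤ 0
  big : ∀ k, 1 ≤ k → k < n → l ≤ |mult a (x k)|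
  eq : ∀ k, 1 ≤ k → k < n → a * sin (2 * π * x k) = m k + x (k + 1) + x (k - 1) - 2 * x k
  eq0 : a * sin (2 * π * x 0) = m 0 + x 1 + x (n - 1) - 2 * x 0
  tr : |mult a (x 0) * fy (fun k => mult a (x k)) n + fc (fun k => mult a (x k)) n
      - fy (fun k => mult a (x k)) (n - 1)| ≤ 2 * (l / 10) ^ (n - 1)

theorem Orb.le34 {a l : ℝ} {n : ℕ} {m : ℕ → ℤ} {s : ℕ → Bool} {x : ℕ → ℝ} (h : Orb a l n m s x)
    {k : ℕ} (hk : k ≤ n) : |x k| ≤ 3 / 4 := by
  have h0 : |x 0| ≤ 3 / 4 := by
    cases hs : s 0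
    · have := h.br0f hs; rw [abs_le]; constructor <;> linarith
    · have := h.br0t hs; rw [abs_le]; constructor <;> linarith
  rcases Nat.eq_zero_or_pos k with rfl | hk0
  · exact h0
  rcases hk.lt_or_eq with hlt | rfl
  · cases hs : s k
    · have := h.brf k hk0 hlt hs; rw [abs_le]; constructor <;> linarith
    · have := h.brt k hk0 hlt hs; rw [abs_le]; constructor <;> linarith
  · rw [h.xn]; exact h0

/-- the size of the cosine in terms of the itinerary -/
theorem Orb.cosm {A a l : ℝ} {n : ℕ} {m : ℕ → ℤ} {s : ℕ → Bool} {x : ℕ → ℝ} (h : Orb a l n m s x)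
    (hA : 0 ≤ A) (ha : A ≤ a) {k : ℕ} (hk : 1 ≤ k) (hkn : k < n) :
    √(A ^ 2 - (|(m k : ℝ)| + 3) ^ 2) ≤ a * |cos (2 * π * x k)| := by
  have h1 := h.eq k hk hkn
  have h2 : |a * sin (2 * π * x k)| ≤ |(m k : ℝ)| + 3 := by
    have a1 := h.le34 (k := k + 1) (by omega)
    have a2 := h.le34 (k := k - 1) (by omega)
    have a3 := h.le34 (k := k) (by omega)
    rw [h1]
    rw [abs_le] at a1 a2 a3
    have b1 := neg_abs_le (m k : ℝ)
    have b2 := le_abs_self (m k : ℝ)
    rw [abs_le]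
    constructor <;> linarith
  have h3 : (a * sin (2 * π * x k)) ^ 2 ≤ (|(m k : ℝ)| + 3) ^ 2 := sq_le_sq' (by
    have := (abs_le.1 h2).1; linarith) (abs_le.1 h2).2
  have h4 : A ^ 2 ≤ a ^ 2 := by gcongr
  have h5 : A ^ 2 - (|(m k : ℝ)| + 3) ^ 2 ≤ (a * |cos (2 * π * x k)|) ^ 2 := by
    have := sin_sq_add_cos_sq (2 * π * x k)
    rw [mul_pow, sq_abs]
    have e : a ^ 2 * cos (2 * π * x k) ^ 2 = a ^ 2 - (a * sin (2 * π * x k)) ^ 2 := by
      linear_combination a ^ 2 * this
    rw [e]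
    linarith
  calc √(A ^ 2 - (|(m k : ℝ)| + 3) ^ 2) ≤ √((a * |cos (2 * π * x k)|) ^ 2) := Real.sqrt_le_sqrt h5
    _ = _ := Real.sqrt_sq (mul_nonneg (hA.trans ha) (abs_nonneg _))

theorem abs_mult_ge (a x : ℝ) (ha : 0 ≤ a) : 2 * π * (a * |cos (2 * π * x)|) - 2 ≤ |mult a x| := by
  have h1 : |2 * π * a * cos (2 * π * x)| = 2 * π * (a * |cos (2 * π * x)|) := by
    rw [abs_mul, abs_of_nonneg (by positivity)]; ring
  rw [← h1]
  unfold mult
  have : |2 * π * a * cos (2 * π * x)| ≤ |2 + 2 * π * a * cos (2 * π * x)| + |(2:ℝ)| := by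
    calc |2 * π * a * cos (2 * π * x)| = |(2 + 2 * π * a * cos (2 * π * x)) - 2| := by ring_nf
      _ ≤ _ := abs_sub _ _
  rw [abs_two] at this
  linarith

theorem Orb.lam_le {A a l : ℝ} {n : ℕ} {m : ℕ → ℤ} {s : ℕ → Bool} {x : ℕ → ℝ} (h : Orb a l n m s x)
    (hA : 0 ≤ A) (ha : A ≤ a) (hl : 1 ≤ l) {k : ℕ} (hk : 1 ≤ k) (hkn : k < n) :
    lam A l (m k) ≤ |mult a (x k)| := by
  have h1 := h.big k hk hkn
  have h2 := h.cosm hA ha hk hkn
  have h3 := abs_mult_ge a (x k) (hA.trans ha)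
  set t := √(A ^ 2 - (|(m k : ℝ)| + 3) ^ 2)
  refine max_le h1 ?_
  rcases le_total t 1 with ht | ht
  · linarith
  · have hp := pi_gt_three
    have : 2 * 3 * t ≤ 2 * π * (a * |cos (2 * π * x k)|) := by
      have : 0 ≤ t := Real.sqrt_nonneg _
      gcongr
    linarith

/-- on a branch, the cosine between two points is at least the smaller of the two values -/
theorem cos_between_t {x x' ξ : ℝ} (hx : |x| ≤ 1 / 4) (hx' : |x'| ≤ 1 / 4)
    (hξ : ξ ∈ Set.uIcc x x') : min (cos (2 * π * x)) (cos (2 * π * x')) ≤ cos (2 * π * ξ) := by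
  have h1 : |ξ| ≤ max |x| |x'| := by
    rw [Set.mem_uIcc] at hξ
    rcases hξ with ⟨h1, h2⟩ | ⟨h1, h2⟩
    · exact abs_le_max_abs_abs h1 h2
    · rw [max_comm]; exact abs_le_max_abs_abs h1 h2
  have key : ∀ y : ℝ, |y| ≤ 1 / 4 → |ξ| ≤ |y| → cos (2 * π * y) ≤ cos (2 * π * ξ) := by
    intro y hy h
    rw [← cos_abs (2 * π * y), ← cos_abs (2 * π * ξ)]
    apply cos_le_cos_of_nonneg_of_le_pi (abs_nonneg _)
    · rw [abs_mul (2 * π), abs_of_nonneg (by positivity : (0:ℝ) ≤ 2 * π)]
      have := pi_pos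
      nlinarith
    · rw [abs_mul (2 * π) ξ, abs_mul (2 * π) y, abs_of_nonneg (by positivity : (0:ℝ) ≤ 2 * π)]
      gcongr
  rcases le_max_iff.1 h1 with h | h
  · exact (min_le_left _ _).trans (key x hx h)
  · exact (min_le_right _ _).trans (key x' hx' h)

theorem cos_half (x : ℝ) : cos (2 * π * x) = - cos (2 * π * (x - 1 / 2)) := by
  have : 2 * π * x = 2 * π * (x - 1 / 2) + π := by ring
  rw [this, cos_add_pi]

theorem cos_nonneg_t {x : ℝ} (hx : |x| ≤ 1 / 4) : 0 ≤ cos (2 * π * x) := by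
  rw [abs_le] at hx
  have := pi_pos
  apply cos_nonneg_of_neg_pi_div_two_le_of_le <;> nlinarith

theorem sub_mem_uIcc {x x' ξ c : ℝ} (h : ξ ∈ Set.uIcc x x') : ξ - c ∈ Set.uIcc (x - c) (x' - c) := by
  rw [Set.mem_uIcc] at h ⊢
  rcases h with ⟨h1, h2⟩ | ⟨h1, h2⟩
  · left; constructor <;> linarith
  · right; constructor <;> linarith

/-- multiplier at an intermediate point -/
theorem mult_between {A a a' l t x x' ξ : ℝ} (hl : 1 ≤ l) (hlA : l ^ 2 ≤ A) (hA : 10000 ≤ A) (ha : A ≤ a)
    (ha' : A ≤ a') (ha2' : a' ≤ A + 1) (b : Bool)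
    (ht : b = true → |x| ≤ 1 / 4 ∧ |x'| ≤ 1 / 4)
    (hf : b = false → |x - 1 / 2| ≤ 1 / 4 ∧ |x' - 1 / 2| ≤ 1 / 4)
    (hξ : ξ ∈ Set.uIcc x x') (h1 : l ≤ |mult a x|) (h2 : l ≤ |mult a' x'|)
    (hl3 : 3 ≤ l)
    (ht1 : t ≤ a * |cos (2 * π * x)|) (ht2 : t ≤ a' * |cos (2 * π * x')|) :
    max l t - 1 ≤ |mult a ξ| := by
  have hp := pi_gt_three
  have hp4 : π < 4 := pi_lt_four
  have ha0 : 0 < a := by linarith
  have ha0' : 0 < a' := by linarith
  have hlA' : l ≤ A := by nlinarith
  -- ratio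
  have hr : ∀ z : ℝ, 0 ≤ z → z - z / A ≤ a * (z / a') := by
    intro z hz
    have : a * (z / a') = z * (a / a') := by ring
    rw [this]
    have h3 : 1 - 1 / A ≤ a / a' := by
      rw [le_div_iff₀ ha0']
      have : (1 - 1 / A) * a' ≤ (1 - 1 / A) * (A + 1) := by
        have : 0 ≤ 1 - 1 / A := by
          rw [sub_nonneg, div_le_one (by linarith)]; linarith
        gcongr
      have h4 : (1 - 1 / A) * (A + 1) = A - 1 / A := by field_simp; ring
      have h5 : 0 < 1 / A := by positivity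
      linarith
    have h5 := mul_le_mul_of_nonneg_left h3 hz
    have : z * (1 - 1 / A) = z - z / A := by ring
    linarith
  cases b with
  | true =>
    obtain ⟨hx, hx'⟩ := ht rfl
    have c1 := cos_nonneg_t hx
    have c2 := cos_nonneg_t hx'
    have c3 := cos_between_t hx hx' hξ
    rw [abs_of_nonneg c1] at ht1
    rw [abs_of_nonneg c2] at ht2
    have m1 : |mult a x| = 2 + 2 * π * a * cos (2 * π * x) := by
      unfold mult; rw [abs_of_nonneg]; positivity
    have m2 : |mult a' x'| = 2 + 2 * π * a' * cos (2 * π * x') := by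
      unfold mult; rw [abs_of_nonneg]; positivity
    rw [m1] at h1
    rw [m2] at h2
    have c4 : 0 ≤ cos (2 * π * ξ) := le_trans (le_min c1 c2) c3
    have m3 : |mult a ξ| = 2 + 2 * π * a * cos (2 * π * ξ) := by
      unfold mult; rw [abs_of_nonneg]; positivity
    rw [m3]
    rcases min_le_iff.1 c3 with h | h
    · have h5 : 2 * π * a * cos (2 * π * x) ≤ 2 * π * a * cos (2 * π * ξ) := by gcongr
      have h6 : t ≤ a * cos (2 * π * ξ) := ht1.trans (by gcongr)
      have h7 : 0 ≤ a * cos (2 * π * ξ) := by positivity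
      have h8 : a * cos (2 * π * ξ) ≤ 2 * π * a * cos (2 * π * ξ) := by nlinarith
      rcases max_cases l t with ⟨e, _⟩ | ⟨e, _⟩ <;> rw [e] <;> linarith
    · set z' := a' * cos (2 * π * x') with hz'
      have hz0 : 0 ≤ z' := by positivity
      have h5 : a * (z' / a') ≤ a * cos (2 * π * ξ) := by
        gcongr
        rw [hz', mul_div_assoc, mul_comm, div_mul_cancel₀ _ ha0'.ne']
        exact h
      have h6 := hr z' hz0
      have h7 : 2 * π * (z' - z' / A) ≤ 2 * π * (a * cos (2 * π * ξ)) := by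
        gcongr; linarith
      have h8 : z' ≤ A + 1 := by
        rw [hz']
        calc a' * cos (2 * π * x') ≤ a' * 1 := by gcongr; exact cos_le_one _
          _ ≤ _ := by linarith
      have h9 : l - 2 ≤ 2 * π * z' := by rw [hz']; linarith
      have h10 : 2 * π * (z' - z' / A) = 2 * π * z' * (1 - 1 / A) := by ring
      have h11 : (l - 2) * (1 - 1 / A) ≤ 2 * π * z' * (1 - 1 / A) := by
        have : 0 ≤ 1 - 1 / A := by
          rw [sub_nonneg, div_le_one (by linarith)]; linarith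
        gcongr
      have h12 : l / A ≤ 1 := by rw [div_le_one (by linarith)]; exact hlA'
      have h13 : (l - 2) * (1 - 1 / A) = l - 2 - l / A + 2 / A := by ring
      have h14 : 0 < 2 / A := by positivity
      have h15 : t * (2 * π * (1 - 1 / A)) ≤ 2 * π * z' * (1 - 1 / A) := by
        have : 0 ≤ 2 * π * (1 - 1 / A) := by
          have : 0 ≤ 1 - 1 / A := by
            rw [sub_nonneg, div_le_one (by linarith)]; linarith
          positivity
        nlinarith
      have h16 : 2 * π * a * cos (2 * π * ξ) = 2 * π * (a * cos (2 * π * ξ)) := by ring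
      rw [h16]
      rcases max_cases l t with ⟨e, _⟩ | ⟨e, hlt⟩ <;> rw [e]
      · linarith
      · have h17 : 1 ≤ 2 * π * (1 - 1 / A) := by
          have : 1 / A ≤ 1 / 2 := by
            apply one_div_le_one_div_of_le <;> linarith
          nlinarith
        have h18 : t * 1 ≤ t * (2 * π * (1 - 1 / A)) := by
          have : 0 ≤ t := by linarith
          gcongr
        linarith
  | false =>
    obtain ⟨hx, hx'⟩ := hf rfl
    have c1 := cos_nonneg_t hx
    have c2 := cos_nonneg_t hx'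
    have c3 := cos_between_t hx hx' (sub_mem_uIcc (c := 1 / 2) hξ)
    have d1 := cos_half x
    have d2 := cos_half x'
    have d3 := cos_half ξ
    set γ := cos (2 * π * (x - 1 / 2)) with hγ
    set γ' := cos (2 * π * (x' - 1 / 2)) with hγ'
    set γξ := cos (2 * π * (ξ - 1 / 2)) with hγξ
    rw [d1, abs_neg, abs_of_nonneg c1] at ht1
    rw [d2, abs_neg, abs_of_nonneg c2] at ht2
    have m1 : l + 2 ≤ 2 * π * a * γ := by
      unfold mult at h1
      rw [d1] at h1
      rcases abs_cases (2 + 2 * π * a * -γ) with ⟨e, _⟩ | ⟨e, _⟩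
      · rw [e] at h1
        have : 0 ≤ 2 * π * a * γ := by positivity
        linarith
      · rw [e] at h1; linarith
    have m2 : l + 2 ≤ 2 * π * a' * γ' := by
      unfold mult at h2
      rw [d2] at h2
      rcases abs_cases (2 + 2 * π * a' * -γ') with ⟨e, _⟩ | ⟨e, _⟩
      · rw [e] at h2
        have : 0 ≤ 2 * π * a' * γ' := by positivity
        linarith
      · rw [e] at h2; linarith
    have m3 : 2 * π * a * γξ - 2 ≤ |mult a ξ| := by
      unfold mult
      rw [d3]
      have := neg_le_abs (2 + 2 * π * a * -γξ)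
      linarith
    refine le_trans ?_ m3
    rcases min_le_iff.1 c3 with h | h
    · have h5 : 2 * π * a * γ ≤ 2 * π * a * γξ := by gcongr
      have h6 : t ≤ a * γξ := ht1.trans (by gcongr)
      rcases max_cases l t with ⟨e, _⟩ | ⟨e, _⟩ <;> rw [e]
      · linarith
      · have : 3 * t ≤ 2 * π * a * γξ := by
          have : 0 ≤ a * γξ := by nlinarith
          nlinarith
        linarith
    · set z' := a' * γ' with hz'
      have hz0 : 0 ≤ z' := by positivity
      have h5 : a * (z' / a') ≤ a * γξ := by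
        gcongr
        rw [hz', mul_div_assoc, mul_comm, div_mul_cancel₀ _ ha0'.ne']
        exact h
      have h6 := hr z' hz0
      have h7 : 2 * π * (z' - z' / A) ≤ 2 * π * (a * γξ) := by
        gcongr; linarith
      have h9 : l + 2 ≤ 2 * π * z' := by rw [hz']; linarith
      have h10 : 2 * π * (z' - z' / A) = 2 * π * z' * (1 - 1 / A) := by ring
      have h11 : (l + 2) * (1 - 1 / A) ≤ 2 * π * z' * (1 - 1 / A) := by
        have : 0 ≤ 1 - 1 / A := by
          rw [sub_nonneg, div_le_one (by linarith)]; linarith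
        gcongr
      have h12 : (l + 2) / A ≤ 1 := by rw [div_le_one (by linarith)]; nlinarith
      have h13 : (l + 2) * (1 - 1 / A) = l + 2 - (l + 2) / A := by ring
      have h15 : t * (2 * π * (1 - 1 / A)) ≤ 2 * π * z' * (1 - 1 / A) := by
        have : 0 ≤ 2 * π * (1 - 1 / A) := by
          have : 0 ≤ 1 - 1 / A := by
            rw [sub_nonneg, div_le_one (by linarith)]; linarith
          positivity
        nlinarith
      have h16 : 2 * π * a * γξ = 2 * π * (a * γξ) := by ring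
      rw [h16]
      rcases max_cases l t with ⟨e, _⟩ | ⟨e, hlt⟩ <;> rw [e]
      · linarith
      · have h17 : 3 ≤ 2 * π * (1 - 1 / A) := by
          have : 1 / A ≤ 1 / 2 := by
            apply one_div_le_one_div_of_le <;> linarith
          nlinarith
        have h18 : t * 3 ≤ t * (2 * π * (1 - 1 / A)) := by
          have : 0 ≤ t := by linarith
          gcongr
        linarith

end Pool.Agent.U467.SM
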